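import Pool.Agent.H17Gun.Def

set_option autoImplicit false

namespace Pool.Agent.H17Gun

/-- abbreviations -/
abbrev tn : Tr := Tr.nil
abbrev tl (k : ℕ) : Tr := Tr.leaf k
abbrev td (o l r t b : Tr) : Tr := Tr.node o l r t b

/-- the states after eight rows -/
def D8 : Tr :=
  (td (td tn tn (td tn (td (td tn tn (td tn (td (td tn tn (td tn (td (td tn tn tn tn (td (td tn tn
  tn (td tn tn tn tn (tl 0)) tn) tn tn tn tn)) tn tn tn tn) tn tn tn) tn tn) tn tn tn tn) tn tn tn)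
  tn (td (td tn tn tn tn (td tn tn tn (td tn tn tn tn (td tn tn tn (td tn tn tn tn (td tn tn tn (td
  tn tn tn tn (td tn tn tn (tl 0) tn)) tn)) tn)) tn)) tn tn tn tn)) tn tn tn tn) tn tn tn) (td (td
  tn tn (td tn (td (td tn tn tn (td tn tn tn tn (td (td tn tn tn (td tn tn tn tn (td tn tn tn (td tn
  tn tn tn (td tn tn tn (tl 0) tn)) tn)) tn) tn tn tn tn)) tn) tn tn tn tn) tn tn tn) tn tn) tn tn
  tn tn) (td (td tn tn (td tn (td (td tn tn tn tn (td tn tn tn (td tn tn tn tn (td tn tn tn (td tn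
  tn tn tn (td tn tn tn (td tn tn tn tn (td tn tn tn (tl 0) tn)) tn)) tn)) tn)) tn tn tn tn) tn tn
  tn) (td tn tn tn tn (td tn tn tn (td tn tn tn tn (td tn tn tn (td tn tn tn tn (td tn tn tn (td tn
  tn tn tn (td (td tn tn (td tn (tl 0) tn tn tn) tn tn) tn tn (td tn tn tn tn (td tn tn tn (tl 2)
  tn)) tn)) tn)) tn)) tn)) tn) tn tn (td (td tn tn (td tn (td (td tn tn tn (td (td tn tn tn (td tn
  tn tn tn (td tn tn tn (td tn tn tn tn (td tn tn tn (tl 0) tn)) tn)) tn) tn tn tn tn) tn) tn tn tn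
  tn) tn tn tn) tn tn) tn tn tn tn) tn)) tn (td tn (td (td tn tn (td tn (td (td tn tn (td tn (td (td
  tn tn tn (td (td tn tn tn (td tn tn tn tn (td tn tn tn (tl 0) tn)) tn) tn tn tn tn) tn) tn tn tn
  tn) tn tn tn) (td (td tn tn (td tn (td (td tn tn tn (td tn tn tn tn (td tn tn tn (tl 0) tn)) tn)
  tn tn tn tn) tn tn tn) tn tn) tn tn tn tn) tn) tn tn tn tn) tn tn tn) (td (td tn tn (td tn (td (td
  tn tn (td tn (td (td tn tn tn (td tn tn tn tn (td tn tn tn (tl 0) tn)) tn) tn tn tn tn) tn tn tn)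
  tn tn) tn tn tn tn) tn tn tn) (td (td tn tn tn tn (td (td tn tn tn (td tn tn tn tn (td tn tn tn
  (td tn tn tn tn (td tn tn tn (tl 0) tn)) tn)) tn) tn tn tn tn)) tn tn tn (td tn tn tn (td tn tn tn
  tn (td tn tn tn (td tn tn tn tn (td tn tn tn (td tn tn tn tn (td tn tn tn (tl 0) tn)) tn)) tn))
  tn)) tn) tn tn tn (td (td tn tn tn tn (td (td tn tn tn tn (td tn tn tn (td tn tn tn tn (td tn tn
  tn (td tn tn tn tn (td tn tn tn (tl 0) tn)) tn)) tn)) tn tn tn tn)) tn tn tn tn)) (td (td tn tn tn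
  tn (td (td tn tn tn (td tn tn tn tn (td tn tn tn (td tn tn tn tn (td tn tn tn (td tn tn tn tn (td
  tn tn tn (tl 0) tn)) tn)) tn)) tn) tn tn tn tn)) tn tn (td (td tn tn tn tn (td (td tn tn tn tn (td
  tn tn tn (td tn tn tn tn (td tn tn tn (td tn tn tn tn (td tn tn tn (tl 0) tn)) tn)) tn)) tn tn tn
  tn)) tn tn tn (td (td tn tn tn tn (td (td tn tn tn (td tn tn tn tn (td tn tn tn (td tn tn tn tn
  (td tn tn tn (tl 0) tn)) tn)) tn) tn tn tn tn)) tn tn (td (td tn tn tn tn (td (td tn tn tn tn (td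
  tn tn tn (td tn tn tn tn (td tn tn tn (tl 0) tn)) tn)) tn tn tn tn)) tn tn tn (td (td tn tn tn tn
  (td (td tn tn tn (td tn tn tn tn (td tn tn tn (tl 0) tn)) tn) tn tn tn tn)) tn tn (td (td tn tn tn
  tn (td (td tn tn tn tn (td tn tn tn (tl 0) tn)) tn tn tn tn)) tn tn tn (td (td tn tn tn tn (td (td
  tn tn tn (tl 0) tn) tn tn tn tn)) tn tn (td (td tn tn tn tn (td (tl 0) tn tn tn tn)) tn tn tn (td
  tn tn tn (td tn tn tn tn (tl 0)) tn)) tn)) tn)) tn)) tn)) tn tn tn tn) tn tn tn) (td (td tn tn (td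
  tn (td (td tn tn (td tn (td (td tn tn (td tn (td (td tn tn tn (td tn tn tn tn (td tn tn tn (tl 0)
  tn)) tn) tn tn tn tn) tn tn tn) tn tn) tn tn tn tn) tn tn tn) (td (td tn tn tn tn (td (td tn tn tn
  (td tn tn tn tn (td tn tn tn (td tn tn tn tn (td tn tn tn (tl 0) tn)) tn)) tn) tn tn tn tn)) tn tn
  tn (td tn tn tn (td tn tn tn tn (td tn tn tn (td tn tn tn tn (td tn tn tn (td tn tn tn tn (td tn
  tn tn (tl 0) tn)) tn)) tn)) tn)) tn) tn tn tn tn) tn tn tn) tn (td (td tn tn tn tn (td tn tn tn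
  (td tn tn tn tn (td tn tn tn (td tn tn tn tn (td tn tn tn (td tn tn tn tn (td (td tn tn (td tn (tl
  0) tn tn tn) tn tn) tn tn (td tn tn tn tn (td tn tn tn (tl 2) tn)) tn)) tn)) tn)) tn)) tn tn tn
  tn)) tn tn tn (td (td tn tn (td tn (td (td tn tn tn tn (td (td tn tn tn tn (td tn tn tn (td tn tn
  tn tn (td tn tn tn (td tn tn tn tn (td tn tn tn (tl 0) tn)) tn)) tn)) tn tn tn tn)) tn tn tn tn)
  tn tn tn) tn (td (td tn tn (td tn (td (td tn tn tn tn (td tn tn tn (td tn tn tn tn (td tn tn tn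
  (td tn tn tn tn (td tn tn tn (tl 0) tn)) tn)) tn)) tn tn tn tn) tn tn tn) (td tn tn tn tn (td tn
  tn tn (td tn tn tn tn (td tn tn tn (td tn tn tn tn (td (td tn tn (td tn (tl 0) tn tn tn) tn tn) tn
  tn (td tn tn tn tn (td tn tn tn (tl 2) tn)) tn)) tn)) tn)) tn) tn tn tn tn)) tn tn (td (td tn tn
  (td tn (td (td tn tn (td tn (td (td tn tn (td tn (td (td tn tn tn (tl 0) tn) tn tn tn tn) tn tn
  tn) (td (td tn tn (td tn (tl 0) tn tn tn) tn tn) tn tn tn tn) tn) tn tn tn tn) tn tn tn) (td (td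
  tn tn (td tn (td (td tn tn (td tn (tl 0) tn tn tn) tn tn) tn tn tn tn) tn tn tn) tn tn) tn tn tn
  (td tn tn tn (td tn tn tn tn (td tn tn tn (td tn tn tn tn (td tn tn tn (tl 0) tn)) tn)) tn)) tn)
  tn tn tn tn) tn tn tn) (td (td tn tn (td tn (td (td tn tn (td tn (td (td tn tn (td tn (tl 0) tn tn
  tn) tn tn) tn tn tn tn) tn tn tn) tn tn) tn tn tn tn) tn tn tn) tn tn) tn tn tn tn) (td (td tn tn
  tn tn (td tn tn tn (td tn tn tn tn (td tn tn tn (td tn tn tn tn (td (td tn tn (td tn (tl 0) tn tn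
  tn) tn tn) tn tn (td tn tn tn tn (td tn tn tn (tl 2) tn)) tn)) tn)) tn)) tn tn tn tn)) tn tn tn
  (td (td tn tn (td tn (td (td tn tn tn tn (td (td tn tn tn tn (td tn tn tn (td tn tn tn tn (td tn
  tn tn (tl 0) tn)) tn)) tn tn tn tn)) tn tn tn tn) tn tn tn) tn (td (td tn tn (td tn (td (td tn tn
  tn tn (td tn tn tn (td tn tn tn tn (td tn tn tn (tl 0) tn)) tn)) tn tn tn tn) tn tn tn) (td tn tn
  tn tn (td tn tn tn (td tn tn tn tn (td (td tn tn (td tn (tl 0) tn tn tn) tn tn) tn tn (td tn tn tn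
  tn (td tn tn tn (tl 2) tn)) tn)) tn)) tn) tn tn tn tn)) tn tn (td (td tn tn (td tn (td (td tn tn
  tn (td tn tn tn tn (td tn tn tn (td tn tn tn tn (td tn tn tn (tl 0) tn)) tn)) tn) tn tn tn tn) tn
  tn tn) (td (td tn tn (td tn (td (td tn tn tn (td tn tn tn tn (td (tl 0) tn tn tn tn)) tn) tn tn tn
  tn) tn tn tn) tn tn) tn tn tn tn) (td (td tn tn tn (td (td tn tn (td tn (td (td tn tn tn (tl 0)
  tn) tn tn tn tn) tn tn tn) (td (td tn tn (td tn (tl 0) tn tn tn) tn tn) tn tn tn tn) tn) tn tn tn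
  tn) (td tn tn tn (td tn tn tn tn (td (td tn tn (td tn (tl 0) tn tn tn) tn tn) tn tn (td tn tn tn
  tn (td tn tn tn (tl 2) tn)) tn)) tn)) tn tn (td (td tn tn (td tn (td (td tn tn tn (td (tl 0) tn tn
  tn tn) tn) tn tn tn tn) tn tn tn) tn tn) tn tn tn tn) tn)) tn tn tn (td (td tn tn (td tn (td (td
  tn tn tn tn (td (td tn tn tn tn (td tn tn tn (tl 0) tn)) tn tn tn tn)) tn tn tn tn) tn tn tn) tn
  (td (td tn tn (td tn (td (td tn tn tn (td tn tn tn tn (tl 0)) (td tn tn tn (tl 0) tn)) tn tn tn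
  tn) tn tn tn) (td tn tn tn tn (td (td tn tn (td tn (tl 0) tn tn tn) tn tn) tn tn (td tn tn tn tn
  (td tn tn tn (tl 2) tn)) tn)) (td tn tn tn (td (td tn tn (td tn (tl 0) tn tn tn) tn tn) tn tn tn
  tn) tn)) tn tn tn tn)) tn tn (td (td tn tn (td tn (td (td tn tn tn (td tn tn tn tn (td tn tn tn
  (tl 0) tn)) tn) tn tn tn tn) tn tn tn) tn (td (td tn tn tn tn (td (td tn tn (td tn (tl 0) tn tn
  tn) tn tn) tn tn (td tn tn tn tn (td tn tn tn (tl 2) tn)) tn)) tn tn tn tn)) tn tn tn (td (td tn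
  tn (td tn (td (td tn tn tn tn (td (tl 0) tn tn tn tn)) tn tn tn tn) tn tn tn) tn (td (td tn tn (td
  tn (td (tl 0) tn tn tn tn) tn tn tn) (td tn tn tn tn (td tn tn tn (tl 2) tn)) tn) tn tn tn tn)) tn
  tn (td (td tn tn (td tn (td (td tn tn tn (tl 0) tn) tn tn tn tn) tn tn tn) (td (td tn tn (td tn
  (tl 0) tn tn tn) tn tn) tn tn tn tn) (td (td tn tn tn tn (td tn tn tn (tl 2) tn)) tn tn tn tn)) tn
  tn tn (td (td tn tn tn tn (td (td tn tn tn (tl 2) tn) tn tn tn tn)) tn tn (td (td tn tn tn tn (td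
  (tl 2) tn tn tn tn)) tn tn tn (td tn tn tn (td tn tn tn tn (tl 2)) tn)) tn)) tn)) tn)) tn)) tn))
  (td tn tn tn (td (td tn tn (td tn (td (td tn tn tn tn (td (td tn tn tn tn (td tn tn tn (td tn tn
  tn tn (td tn tn tn (td tn tn tn tn (td tn tn tn (tl 0) tn)) tn)) tn)) tn tn tn tn)) tn tn tn tn)
  tn tn tn) tn (td (td tn tn (td tn (td (td tn tn (td tn (td (td tn tn (td tn (td (tl 0) tn tn tn
  tn) tn tn tn) tn tn) tn tn tn tn) tn tn tn) tn tn) tn tn tn tn) tn tn tn) tn tn) tn tn tn tn)) tn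
  tn tn (td tn tn tn (td tn tn tn tn (td tn tn tn (td tn tn tn tn (td tn tn tn (td tn tn tn tn (td
  tn tn tn (td tn tn tn tn (td (td tn tn (td tn (tl 0) tn tn tn) tn tn) tn tn (td tn tn tn tn (td tn
  tn tn (tl 2) tn)) tn)) tn)) tn)) tn)) tn)) tn))

/-- states after twelve rows, last letters R O -/
def D12OR : Tr :=
  (td tn (td (td tn tn (td tn (td (td tn tn tn (td (td tn tn tn (td (td tn tn tn tn (td (td tn tn tn
  tn (tl 0)) tn tn tn tn)) tn tn tn tn) tn) tn tn tn tn) (td (td tn tn tn (td (td tn tn tn (td tn tn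
  tn tn (td (tl 0) tn tn tn tn)) tn) tn tn tn tn) tn) tn tn tn tn)) tn tn (td tn tn tn tn (td (td tn
  tn tn tn (td (td tn tn tn tn (td (td tn tn tn tn (tl 0)) tn tn tn tn)) tn tn tn tn)) tn tn tn tn))
  tn) tn tn tn) (td (td tn tn (td tn (td (td tn tn tn (td (td tn tn tn tn (td (td tn tn tn tn (tl
  0)) tn tn tn tn)) tn tn tn tn) tn) tn tn tn tn) tn tn tn) (td (td tn tn (td tn (td (td tn tn tn tn
  (td (td tn tn tn tn (tl 0)) tn tn tn tn)) tn tn tn tn) tn tn tn) tn tn) tn tn tn (td (td tn tn tn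
  tn (td (td tn tn (td tn (td (tl 0) tn tn tn tn) tn tn tn) tn (td (td tn tn tn tn (tl 2)) tn tn tn
  tn)) tn tn tn tn)) tn tn tn tn)) tn) tn tn (td tn tn tn (td tn tn tn tn (td (td tn tn tn tn (td
  (td tn tn tn tn (td (td tn tn tn tn (tl 0)) tn tn tn tn)) tn tn tn tn)) tn tn tn tn)) tn) tn) (td
  (td tn tn (td tn (td (td tn tn tn (td (td tn tn tn (td (td tn tn tn tn (tl 0)) tn tn tn tn) tn) tn
  tn tn tn) tn) tn tn (td tn tn tn tn (td (td tn tn tn tn (td (td tn tn tn tn (tl 0)) tn tn tn tn))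
  tn tn tn tn)) tn) tn tn tn) (td (td tn tn (td tn (td (td tn tn tn (td (td tn tn tn tn (tl 0)) tn
  tn tn (td (tl 0) tn tn tn tn)) tn) tn tn tn tn) tn tn tn) (td (td tn tn (td tn (td (td tn tn tn tn
  (tl 0)) tn tn tn tn) tn tn tn) tn tn) tn tn tn (td (td tn tn (td tn (td (tl 0) tn tn tn tn) tn tn
  tn) tn (td (td tn tn tn tn (tl 2)) tn tn tn tn)) tn tn tn tn)) tn) tn tn (td tn tn tn (td tn tn tn
  tn (td (td tn tn tn tn (td (td tn tn tn tn (tl 0)) tn tn tn tn)) tn tn tn tn)) tn) tn) (td (td tn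
  tn (td tn (td (td tn tn tn (td (td tn tn tn (tl 0) tn) tn tn tn tn) tn) tn tn (td tn tn tn tn (td
  (td tn tn tn tn (tl 0)) tn tn tn tn)) tn) tn tn tn) (td (td tn tn (td tn (td (td tn tn tn (tl 0)
  tn) tn tn tn tn) tn tn tn) (td (td tn tn (td tn (tl 0) tn tn tn) tn tn) tn tn tn (td (td tn tn tn
  tn (tl 2)) tn tn tn tn)) tn) tn tn (td tn tn tn (td tn tn tn tn (td (td tn tn tn tn (tl 0)) tn tn
  tn tn)) tn) tn) (td (td tn tn (td tn (td tn tn tn (td tn tn tn tn (tl 0)) tn) tn tn tn) (td (td tn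
  tn tn (td tn tn tn tn (tl 2)) tn) tn tn (td tn tn tn (td tn tn tn tn (tl 0)) tn) tn) (td (td tn tn
  tn tn (td (tl 2) tn tn tn tn)) tn tn (td (td tn tn tn (tl 2) tn) tn (td tn (tl 0) tn tn tn) (td tn
  tn tn (tl 0) tn) tn) tn)) tn tn (td (td tn tn tn (td (td tn tn tn tn (tl 2)) tn tn tn tn) tn) tn
  (td tn (td (td tn tn tn tn (tl 0)) tn tn tn tn) tn tn tn) (td tn tn tn (td (td tn tn tn tn (tl 0))
  tn tn tn tn) tn) tn) tn)) tn tn (td (td tn tn tn (td (td tn tn (td tn (td (tl 0) tn tn tn tn) tn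
  tn tn) tn (td (td tn tn tn tn (tl 2)) tn tn tn tn)) tn tn tn tn) tn) tn (td tn (td (td tn tn tn tn
  (td (td tn tn tn tn (tl 0)) tn tn tn tn)) tn tn tn tn) tn tn tn) (td tn tn tn (td (td tn tn tn tn
  (td (td tn tn tn tn (tl 0)) tn tn tn tn)) tn tn tn tn) tn) tn) tn)) tn tn (td (td tn tn tn (td (td
  tn tn tn tn (td (td tn tn (td tn (td (tl 0) tn tn tn tn) tn tn tn) tn (td (td tn tn tn tn (tl 2))
  tn tn tn tn)) tn tn tn tn)) tn tn tn tn) tn) tn (td tn (td (td tn tn tn tn (td (td tn tn tn tn (td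
  (td tn tn tn tn (tl 0)) tn tn tn tn)) tn tn tn tn)) tn tn tn tn) tn tn tn) (td tn tn tn (td (td tn
  tn tn tn (td (td tn tn tn tn (td (td tn tn tn tn (tl 0)) tn tn tn tn)) tn tn tn tn)) tn tn tn tn)
  tn) tn) tn)) tn tn tn (td (td tn tn tn (td (td tn tn tn (td (td tn tn tn tn (td (td tn tn tn tn
  (td (td tn tn tn tn (tl 1)) tn tn tn tn)) tn tn tn tn)) tn tn tn tn) tn) tn tn tn tn) tn) tn tn
  (td tn tn tn tn (td (td tn tn tn tn (td (td tn tn tn tn (td (td tn tn tn tn (td (td tn tn tn tn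
  (tl 1)) tn tn tn tn)) tn tn tn tn)) tn tn tn tn)) tn tn tn tn)) tn)) tn tn tn)

/-- states after twelve rows, last letters T O -/
def D12OT : Tr :=
  (td (td tn tn tn (td (td tn tn tn tn (td (td tn tn tn tn (td (td tn tn tn tn (td (td tn tn tn tn
  (td (td tn tn tn tn (tl 0)) tn tn tn tn)) tn tn tn tn)) tn tn tn tn)) tn tn tn tn)) tn tn tn (td
  (td tn tn tn (td (td tn tn tn (td tn tn tn tn (td (td tn tn tn tn (td (td tn tn tn tn (tl 0)) tn
  tn tn tn)) tn tn tn tn)) tn) tn tn tn tn) (td (td tn tn tn (td (td tn tn tn (td tn tn tn tn (td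
  (td tn tn tn tn (tl 0)) tn tn tn tn)) tn) tn tn tn tn) (td (td tn tn tn (td (td tn tn tn (td tn tn
  tn tn (tl 0)) tn) tn tn tn tn) (td (td tn tn tn tn (td (tl 0) tn tn tn tn)) tn tn (td (td tn tn tn
  (tl 0) tn) tn tn tn tn) tn)) tn tn (td (td tn tn tn (td (td tn tn tn tn (tl 0)) tn tn tn tn) tn)
  tn tn tn tn) tn)) tn tn (td (td tn tn tn (td (td tn tn tn tn (td (td tn tn tn tn (tl 0)) tn tn tn
  tn)) tn tn tn tn) tn) tn tn tn tn) tn)) tn tn (td (td tn tn tn (td (td tn tn tn tn (td (td tn tn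
  tn tn (td (td tn tn tn tn (tl 0)) tn tn tn tn)) tn tn tn tn)) tn tn tn tn) tn) tn tn tn tn) tn))
  tn) tn tn (td (td tn tn tn (td (td tn tn tn (td tn tn tn tn (td (td tn tn tn tn (td (td tn tn tn
  tn (td (td tn tn tn tn (tl 1)) tn tn tn tn)) tn tn tn tn)) tn tn tn tn)) tn) tn tn tn tn) (td (td
  tn tn tn (td (td tn tn tn (td tn tn tn tn (td (td tn tn tn tn (td (td tn tn tn tn (tl 1)) tn tn tn
  tn)) tn tn tn tn)) tn) tn tn tn tn) (td (td tn tn tn (td (td tn tn tn (td tn tn tn tn (td (td tn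
  tn tn tn (tl 1)) tn tn tn tn)) tn) tn tn tn tn) (td (td tn tn tn (td (td tn tn tn (td tn tn tn tn
  (tl 1)) tn) tn tn tn tn) (td (td tn tn tn tn (td (tl 1) tn tn tn tn)) tn tn (td (td tn tn tn (tl
  1) tn) tn tn tn tn) tn)) tn tn (td (td tn tn tn (td (td tn tn tn tn (tl 1)) tn tn tn tn) tn) tn tn
  tn tn) tn)) tn tn (td (td tn tn tn (td (td tn tn tn tn (td (td tn tn tn tn (tl 1)) tn tn tn tn))
  tn tn tn tn) tn) tn tn tn tn) tn)) tn tn (td (td tn tn tn (td (td tn tn tn tn (td (td tn tn tn tn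
  (td (td tn tn tn tn (tl 1)) tn tn tn tn)) tn tn tn tn)) tn tn tn tn) tn) tn tn tn tn) tn)) tn tn
  tn (td (td tn tn tn (td (td tn tn tn (td (td tn tn tn tn (td (td tn tn tn tn (td (td tn tn tn tn
  (tl 1)) tn tn tn tn)) tn tn tn tn)) tn tn tn tn) tn) tn tn tn tn) tn) tn tn (td tn tn tn tn (td
  (td tn tn tn tn (td (td tn tn tn tn (td (td tn tn tn tn (td (td tn tn tn tn (tl 1)) tn tn tn tn))
  tn tn tn tn)) tn tn tn tn)) tn tn tn tn)) tn)) tn)

/-- states after twelve rows, last letters B O -/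
def D12OB : Tr :=
  (td (td tn tn tn (td (td tn tn tn (td (td tn tn tn tn (td (td tn tn tn tn (td (td tn tn tn tn (td
  (td tn tn tn tn (tl 0)) tn tn tn tn)) tn tn tn tn)) tn tn tn tn)) tn tn tn tn) tn) tn tn tn tn)
  (td (td tn tn tn (td (td tn tn tn (td (td tn tn tn tn (td (td tn tn tn tn (td (td tn tn tn tn (tl
  0)) tn tn tn tn)) tn tn tn tn)) tn tn tn tn) tn) tn tn tn tn) (td (td tn tn tn (td (td tn tn tn
  (td (td tn tn tn tn (td (td tn tn tn tn (tl 0)) tn tn tn tn)) tn tn tn tn) tn) tn tn tn tn) (td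
  (td tn tn tn (td (td tn tn tn (td (td tn tn tn tn (tl 0)) tn tn tn (td (tl 0) tn tn tn tn)) tn) tn
  tn tn tn) (td (td tn tn (td tn (td (tl 2) tn tn tn tn) tn tn tn) (td (td tn tn tn (tl 0) tn) tn tn
  (td (tl 1) tn tn tn tn) tn) (td (td tn tn tn tn (tl 4)) tn tn (td tn tn tn tn (tl 0)) tn)) tn tn
  (td (td tn tn tn (td (tl 0) tn tn tn tn) tn) tn tn tn (td (td tn tn tn tn (tl 0)) tn tn tn tn))
  tn)) tn tn (td tn tn tn tn (td (td tn tn tn tn (td (td tn tn tn tn (tl 0)) tn tn tn tn)) tn tn tn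
  tn)) tn)) tn tn (td tn tn tn tn (td (td tn tn tn tn (td (td tn tn tn tn (td (td tn tn tn tn (tl
  0)) tn tn tn tn)) tn tn tn tn)) tn tn tn tn)) tn)) tn tn (td tn tn tn tn (td (td tn tn tn tn (td
  (td tn tn tn tn (td (td tn tn tn tn (td (td tn tn tn tn (tl 0)) tn tn tn tn)) tn tn tn tn)) tn tn
  tn tn)) tn tn (td (td tn tn tn (td tn tn tn tn (td (td tn tn tn tn (td (td tn tn tn tn (tl 0)) tn
  tn tn tn)) tn tn tn tn)) tn) tn tn tn tn) tn)) tn)) tn (td tn (td (td tn tn tn (td (td tn tn tn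
  (td (td tn tn tn tn (td (td tn tn tn tn (td (td tn tn tn tn (tl 1)) tn tn tn tn)) tn tn tn tn)) tn
  tn tn tn) tn) tn tn tn tn) tn) tn tn tn tn) tn tn tn) (td (td tn tn (td tn (td (td tn tn tn (td
  (td tn tn tn tn (td (td tn tn (td tn (td (tl 0) tn tn tn tn) tn tn tn) tn (td (td tn tn tn tn (tl
  2)) tn tn tn tn)) tn tn tn tn)) tn tn tn tn) tn) tn tn tn tn) tn tn tn) (td (td tn tn tn (td (td
  tn tn tn (td tn tn tn tn (td (td tn tn tn tn (td (td tn tn tn tn (tl 0)) tn tn tn tn)) tn tn tn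
  tn)) tn) tn tn tn tn) (td (td tn tn (td tn (td (td tn tn (td tn (td (tl 0) tn tn tn tn) tn tn tn)
  tn tn) tn tn tn tn) tn tn tn) (td (td tn tn tn (td tn tn tn tn (td (td tn tn tn tn (tl 0)) tn tn
  tn tn)) tn) tn tn tn tn) (td (td tn tn tn (td (td tn tn tn (td tn tn tn tn (tl 0)) tn) tn tn tn
  tn) (td (td tn tn tn tn (td (tl 0) tn tn tn tn)) tn tn (td (td tn tn tn (tl 0) tn) tn tn tn tn)
  tn)) tn tn (td (td tn tn tn (td (td tn tn tn tn (tl 0)) tn tn tn tn) tn) tn tn tn tn) tn)) tn tn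
  (td (td tn tn tn (td (td tn tn tn tn (td (td tn tn tn tn (tl 0)) tn tn tn tn)) tn tn tn tn) tn) tn
  tn tn tn) tn)) tn tn (td (td tn tn tn (td (td tn tn tn tn (td (td tn tn tn tn (td (td tn tn tn tn
  (tl 1)) tn tn tn tn)) tn tn tn tn)) tn tn tn tn) tn) tn tn tn tn) tn) (td tn tn tn (td tn tn tn tn
  (td tn tn tn (td (td tn tn tn tn (td (td tn tn tn tn (td (td tn tn tn tn (tl 0)) tn tn tn tn)) tn
  tn tn tn)) tn tn tn tn) tn)) tn)) tn tn (td (td tn tn tn (td (td tn tn tn (td (td tn tn tn tn (td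
  (td tn tn tn tn (td (td tn tn tn tn (tl 1)) tn tn tn tn)) tn tn tn tn)) tn tn tn tn) tn) tn tn tn
  tn) tn) tn tn tn tn) (td (td tn tn tn tn (td (td tn tn tn tn (td (td tn tn tn tn (td (td tn tn tn
  tn (td (td tn tn tn tn (tl 0)) tn tn tn tn)) tn tn tn tn)) tn tn tn tn)) tn tn tn tn)) tn tn (td
  (td tn tn tn (td tn tn tn tn (td (td tn tn tn tn (td (td tn tn tn tn (td (td tn tn tn tn (tl 0))
  tn tn tn tn)) tn tn tn tn)) tn tn tn tn)) tn) tn tn tn (td (td tn tn tn (td (td tn tn tn tn (td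
  (td tn tn tn tn (td (td tn tn tn tn (tl 0)) tn tn tn tn)) tn tn tn tn)) tn tn tn tn) tn) tn tn tn
  tn)) tn)) tn)

/-- states after twelve rows, last letters L R -/
def D12RL : Tr :=
  (td (td tn tn (td tn (td (td tn tn tn (td (td tn tn tn (td tn tn tn tn (td tn tn tn (td tn tn tn
  tn (td (td tn tn tn tn (tl 0)) tn tn tn tn)) tn)) tn) tn tn tn (td (td tn tn tn tn (td (td tn tn
  tn tn (td (td tn tn tn tn (tl 0)) tn tn tn tn)) tn tn tn tn)) tn tn tn tn)) tn) tn tn (td (td tn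
  tn tn tn (td (td tn tn tn tn (td (td tn tn tn tn (td (td tn tn tn tn (tl 0)) tn tn tn tn)) tn tn
  tn tn)) tn tn tn tn)) tn tn tn tn) tn) tn tn tn) (td (td tn tn (td tn (td (td tn tn tn (td tn tn
  tn tn (td tn tn tn (td tn tn tn tn (td (td tn tn tn tn (tl 0)) tn tn tn tn)) tn)) tn) tn tn tn tn)
  tn tn tn) (td (td tn tn tn tn (td (td tn tn tn tn (td (td tn tn (td tn (td (tl 0) tn tn tn tn) tn
  tn tn) tn (td (td tn tn tn tn (tl 2)) tn tn tn tn)) tn tn tn tn)) tn tn tn tn)) tn tn tn tn) tn)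
  tn (td tn (td (td tn tn tn tn (td (td tn tn tn tn (td (td tn tn tn tn (td (td tn tn tn tn (tl 0))
  tn tn tn tn)) tn tn tn tn)) tn tn tn tn)) tn tn tn tn) tn tn tn) (td tn tn tn (td (td tn tn tn tn
  (td (td tn tn tn tn (td (td tn tn tn tn (td (td tn tn tn tn (tl 0)) tn tn tn tn)) tn tn tn tn)) tn
  tn tn tn)) tn tn tn tn) tn) tn) tn) tn tn (td (td tn tn (td tn (td (td tn tn tn tn (td (td tn tn
  tn tn (td (td tn tn tn tn (td (td tn tn tn tn (tl 0)) tn tn tn tn)) tn tn tn tn)) tn tn tn tn)) tn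
  tn tn tn) tn tn tn) tn tn) tn tn tn (td (td tn tn tn tn (td (td tn tn tn tn (td (td tn tn tn tn
  (td (td tn tn (td tn (td (tl 0) tn tn tn tn) tn tn tn) tn (td (td tn tn tn tn (tl 2)) tn tn tn
  tn)) tn tn tn tn)) tn tn tn tn)) tn tn tn tn)) tn tn tn tn)) tn)

/-- states after twelve rows, last letters O T -/
def D12TO : Tr :=
  (td tn tn (td tn (td (td tn tn (td tn (td (td tn tn tn (td tn tn tn tn (td tn tn tn (td tn tn tn
  tn (td (td tn tn tn tn (tl 0)) tn tn tn tn)) tn)) tn) tn tn tn tn) tn tn tn) (td (td tn tn tn tn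
  (td (td tn tn tn tn (td (td tn tn (td tn (td (tl 0) tn tn tn tn) tn tn tn) tn (td (td tn tn tn tn
  (tl 2)) tn tn tn tn)) tn tn tn tn)) tn tn tn tn)) tn tn tn tn) tn) tn tn tn tn) tn tn tn) (td (td
  tn tn (td tn (td (td tn tn tn tn (td (td tn tn tn tn (td (td tn tn (td tn (td (tl 0) tn tn tn tn)
  tn tn tn) tn (td (td tn tn tn tn (tl 2)) tn tn tn tn)) tn tn tn tn)) tn tn tn tn)) tn tn tn tn) tn
  tn tn) (td (td tn tn tn (td tn tn tn tn (td (td tn tn tn tn (td (td tn tn tn tn (td (td tn tn tn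
  tn (tl 0)) tn tn tn tn)) tn tn tn tn)) tn tn tn tn)) tn) tn tn (td (td tn tn tn tn (td (td tn tn
  tn tn (td (td tn tn tn tn (td (td tn tn tn tn (tl 1)) tn tn tn tn)) tn tn tn tn)) tn tn tn tn)) tn
  tn tn tn) tn) (td (td tn tn tn (td (td tn tn tn (td tn tn tn tn (td (td tn tn tn tn (td (td tn tn
  tn tn (tl 0)) tn tn tn tn)) tn tn tn tn)) tn) tn tn tn tn) (td (td tn tn tn (td (td tn tn tn (td
  tn tn tn tn (td (td tn tn tn tn (tl 0)) tn tn tn tn)) tn) tn tn tn tn) (td (td tn tn tn (td (td tn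
  tn tn (td tn tn tn tn (tl 0)) tn) tn tn tn tn) (td (td tn tn tn tn (td (tl 0) tn tn tn tn)) tn tn
  (td (td tn tn tn (tl 0) tn) tn tn tn tn) tn)) tn tn (td (td tn tn tn (td (td tn tn tn tn (tl 0))
  tn tn tn tn) tn) tn tn tn tn) tn)) tn tn (td (td tn tn tn (td (td tn tn tn tn (td (td tn tn tn tn
  (tl 0)) tn tn tn tn)) tn tn tn tn) tn) tn tn tn tn) tn)) tn tn (td (td tn tn tn (td (td tn tn tn
  tn (td (td tn tn tn tn (td (td tn tn tn tn (tl 0)) tn tn tn tn)) tn tn tn tn)) tn tn tn tn) tn) tn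
  tn tn tn) tn)) tn tn (td (td tn tn tn (td (td tn tn tn tn (td (td tn tn tn tn (td (td tn tn tn tn
  (td (td tn tn tn tn (tl 1)) tn tn tn tn)) tn tn tn tn)) tn tn tn tn)) tn tn tn tn) tn) tn tn tn
  tn) (td (td tn tn tn (td (td tn tn tn (td (td tn tn tn tn (td (td tn tn tn tn (td (td tn tn tn tn
  (tl 0)) tn tn tn tn)) tn tn tn tn)) tn tn tn tn) tn) tn tn tn tn) (td (td tn tn tn (td (td tn tn
  tn (td (td tn tn tn tn (td (td tn tn tn tn (tl 0)) tn tn tn tn)) tn tn tn tn) tn) tn tn tn tn) (td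
  (td tn tn tn (td (td tn tn tn (td (td tn tn tn tn (tl 0)) tn tn tn (td (tl 0) tn tn tn tn)) tn) tn
  tn tn tn) (td (td tn tn (td tn (td (tl 2) tn tn tn tn) tn tn tn) (td (td tn tn tn (tl 0) tn) tn tn
  (td (tl 1) tn tn tn tn) tn) (td (td tn tn tn tn (tl 4)) tn tn (td tn tn tn tn (tl 0)) tn)) tn tn
  (td (td tn tn tn (td (tl 0) tn tn tn tn) tn) tn tn tn (td (td tn tn tn tn (tl 0)) tn tn tn tn))
  tn)) tn tn (td tn tn tn tn (td (td tn tn tn tn (td (td tn tn tn tn (tl 0)) tn tn tn tn)) tn tn tn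
  tn)) tn)) tn tn (td tn tn tn tn (td (td tn tn tn tn (td (td tn tn tn tn (td (td tn tn tn tn (tl
  0)) tn tn tn tn)) tn tn tn tn)) tn tn tn tn)) tn)) tn tn (td tn tn tn tn (td (td tn tn tn tn (td
  (td tn tn tn tn (td (td tn tn tn tn (td (td tn tn tn tn (tl 0)) tn tn tn tn)) tn tn tn tn)) tn tn
  tn tn)) tn tn (td (td tn tn tn (td tn tn tn tn (td (td tn tn tn tn (td (td tn tn tn tn (tl 0)) tn
  tn tn tn)) tn tn tn tn)) tn) tn tn tn tn) tn)) tn)) (td (td tn tn tn tn (td (td tn tn tn (td tn tn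
  tn tn (td tn tn tn (td tn tn tn tn (td (td tn tn tn tn (td (td tn tn tn tn (tl 0)) tn tn tn tn))
  tn tn tn tn)) tn)) tn) tn tn tn tn)) tn tn (td (td tn tn tn tn (td (td tn tn tn tn (td tn tn tn
  (td tn tn tn tn (td (td tn tn tn tn (td (td tn tn tn tn (tl 0)) tn tn tn tn)) tn tn tn tn)) tn))
  tn tn tn tn)) tn tn tn (td tn tn tn (td (td tn tn tn tn (td (td tn tn tn tn (td (td tn tn tn tn
  (td (td tn tn tn tn (tl 0)) tn tn tn tn)) tn tn tn tn)) tn tn tn tn)) tn tn tn tn) tn)) tn))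

/-- states after twelve rows, last letters R T -/
def D12TR : Tr :=
  (td tn (td (td tn tn (td tn (td (td tn tn tn tn (td (td tn tn tn tn (td (td tn tn tn tn (td (td tn
  tn tn tn (tl 0)) tn tn tn tn)) tn tn tn tn)) tn tn tn tn)) tn tn tn tn) tn tn tn) tn tn) tn tn tn
  (td (td tn tn tn tn (td (td tn tn tn tn (td (td tn tn tn tn (td (td tn tn tn tn (td (td tn tn tn
  tn (tl 1)) tn tn tn tn)) tn tn tn tn)) tn tn tn tn)) tn tn tn tn)) tn tn tn tn)) tn tn tn)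

/-- states after twelve rows, last letters T T -/
def D12TT : Tr :=
  (td (td tn tn tn (td (td tn tn tn (td (td tn tn tn tn (td (td tn tn tn tn (td (td tn tn tn tn (td
  (td tn tn tn tn (tl 1)) tn tn tn tn)) tn tn tn tn)) tn tn tn tn)) tn tn tn tn) tn) tn tn tn tn)
  tn) tn tn (td (td tn tn (td tn (td (td tn tn tn tn (td (td tn tn tn tn (td (td tn tn tn tn (td (td
  tn tn tn tn (tl 0)) tn tn tn tn)) tn tn tn tn)) tn tn tn tn)) tn tn tn tn) tn tn tn) tn tn) tn tn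
  tn (td (td tn tn tn tn (td (td tn tn tn tn (td (td tn tn tn tn (td (td tn tn (td tn (td (tl 0) tn
  tn tn tn) tn tn tn) tn (td (td tn tn tn tn (tl 2)) tn tn tn tn)) tn tn tn tn)) tn tn tn tn)) tn tn
  tn tn)) tn tn tn tn)) tn)

/-- states after twelve rows, last letters B T -/
def D12TB : Tr :=
  (td (td tn tn tn tn (td (td tn tn tn (td tn tn tn tn (td (td tn tn tn (td tn tn tn tn (td (td tn
  tn tn tn (td (td tn tn tn tn (tl 0)) tn tn tn tn)) tn tn tn tn)) tn) tn tn tn tn)) (td (td tn tn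
  tn tn (td (td tn tn tn tn (td (td tn tn tn tn (td (td tn tn tn tn (tl 0)) tn tn tn tn)) tn tn tn
  tn)) tn tn tn tn)) tn tn tn tn)) tn tn tn tn)) tn tn (td (td tn tn tn (td tn tn tn tn (td (td tn
  tn tn tn (td (td tn tn tn tn (td (td tn tn tn tn (td (td tn tn tn tn (tl 0)) tn tn tn tn)) tn tn
  tn tn)) tn tn tn tn)) tn tn tn tn)) (td (td tn tn tn tn (td (td tn tn tn (td tn tn tn tn (td (td
  tn tn tn tn (td (td tn tn tn tn (tl 0)) tn tn tn tn)) tn tn tn tn)) tn) tn tn tn tn)) tn tn tn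
  tn)) tn tn tn (td (td tn tn tn (td (td tn tn tn tn (td (td tn tn tn tn (td (td tn tn tn tn (td (td
  tn tn tn tn (tl 0)) tn tn tn tn)) tn tn tn tn)) tn tn tn tn)) tn tn tn tn) tn) tn tn tn tn)) tn)

/-- states after twelve rows, last letters O B -/
def D12BO : Tr :=
  (td tn tn (td tn (td (td tn tn (td tn (td (td tn tn tn (td tn tn tn tn (td (td tn tn tn tn (td (td
  tn tn tn tn (tl 0)) tn tn tn tn)) tn tn tn tn)) tn) tn tn (td (td tn tn tn tn (td (td tn tn tn tn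
  (td (td tn tn tn tn (tl 0)) tn tn tn tn)) tn tn tn tn)) tn tn tn tn) tn) tn tn tn) (td (td tn tn
  tn (td (td tn tn tn tn (td (td tn tn (td tn (td (tl 0) tn tn tn tn) tn tn tn) tn (td (td tn tn tn
  tn (tl 2)) tn tn tn tn)) tn tn tn tn)) tn tn tn tn) tn) tn (td tn (td (td tn tn tn tn (td (td tn
  tn tn tn (td (td tn tn tn tn (tl 0)) tn tn tn tn)) tn tn tn tn)) tn tn tn tn) tn tn tn) (td tn tn
  tn (td (td tn tn tn tn (td (td tn tn tn tn (td (td tn tn tn tn (tl 0)) tn tn tn tn)) tn tn tn tn))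
  tn tn tn tn) tn) tn) tn) tn tn (td (td tn tn (td tn (td (td tn tn tn tn (td (td tn tn tn tn (td
  (td tn tn tn tn (tl 0)) tn tn tn tn)) tn tn tn tn)) tn tn tn tn) tn tn tn) tn tn) tn tn tn (td (td
  tn tn tn tn (td (td tn tn tn tn (td (td tn tn (td tn (td (tl 0) tn tn tn tn) tn tn tn) tn (td (td
  tn tn tn tn (tl 2)) tn tn tn tn)) tn tn tn tn)) tn tn tn tn)) tn tn tn tn)) tn) tn tn tn) (td (td
  tn tn (td tn (td (td tn tn tn (td (td tn tn tn tn (td (td tn tn (td tn (td (tl 0) tn tn tn tn) tn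
  tn tn) tn (td (td tn tn tn tn (tl 2)) tn tn tn tn)) tn tn tn tn)) tn tn tn tn) tn) tn tn tn tn) tn
  tn tn) (td (td tn tn (td tn (td (td tn tn tn tn (td (td tn tn (td tn (td (tl 0) tn tn tn tn) tn tn
  tn) tn (td (td tn tn tn tn (tl 2)) tn tn tn tn)) tn tn tn tn)) tn tn tn tn) tn tn tn) (td (td tn
  tn tn (td tn tn tn tn (td (td tn tn tn tn (td (td tn tn tn tn (tl 0)) tn tn tn tn)) tn tn tn tn))
  tn) tn tn (td (td tn tn tn tn (td (td tn tn tn tn (td (td tn tn tn tn (tl 1)) tn tn tn tn)) tn tn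
  tn tn)) tn tn tn tn) tn) (td (td tn tn tn (td (td tn tn tn (td tn tn tn tn (td (td tn tn tn tn (tl
  0)) tn tn tn tn)) tn) tn tn tn tn) (td (td tn tn tn (td (td tn tn tn (td tn tn tn tn (tl 0)) tn)
  tn tn tn tn) (td (td tn tn tn tn (td (tl 0) tn tn tn tn)) tn tn (td (td tn tn tn (tl 0) tn) tn tn
  tn tn) tn)) tn tn (td (td tn tn tn (td (td tn tn tn tn (tl 0)) tn tn tn tn) tn) tn tn tn tn) tn))
  tn tn (td (td tn tn tn (td (td tn tn tn tn (td (td tn tn tn tn (tl 0)) tn tn tn tn)) tn tn tn tn)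
  tn) tn tn tn tn) tn)) tn tn (td (td tn tn tn (td (td tn tn tn tn (td (td tn tn tn tn (td (td tn tn
  tn tn (tl 1)) tn tn tn tn)) tn tn tn tn)) tn tn tn tn) tn) tn tn tn tn) (td (td tn tn tn (td (td
  tn tn tn (td (td tn tn tn tn (td (td tn tn tn tn (tl 0)) tn tn tn tn)) tn tn tn tn) tn) tn tn tn
  tn) (td (td tn tn tn (td (td tn tn tn (td (td tn tn tn tn (tl 0)) tn tn tn (td (tl 0) tn tn tn
  tn)) tn) tn tn tn tn) (td (td tn tn (td tn (td (tl 2) tn tn tn tn) tn tn tn) (td (td tn tn tn (tl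
  0) tn) tn tn (td (tl 1) tn tn tn tn) tn) (td (td tn tn tn tn (tl 4)) tn tn (td tn tn tn tn (tl 0))
  tn)) tn tn (td (td tn tn tn (td (tl 0) tn tn tn tn) tn) tn tn tn (td (td tn tn tn tn (tl 0)) tn tn
  tn tn)) tn)) tn tn (td tn tn tn tn (td (td tn tn tn tn (td (td tn tn tn tn (tl 0)) tn tn tn tn))
  tn tn tn tn)) tn)) tn tn (td tn tn tn tn (td (td tn tn tn tn (td (td tn tn tn tn (td (td tn tn tn
  tn (tl 0)) tn tn tn tn)) tn tn tn tn)) tn tn tn tn)) tn)) (td tn tn tn (td tn tn tn tn (td tn tn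
  tn (td (td tn tn tn tn (td (td tn tn tn tn (td (td tn tn tn tn (tl 0)) tn tn tn tn)) tn tn tn tn))
  tn tn tn tn) tn)) tn)) tn (td tn (td (td tn tn (td tn (td (td tn tn tn tn (td (td tn tn tn tn (td
  (td tn tn tn tn (tl 0)) tn tn tn tn)) tn tn tn tn)) tn tn tn tn) tn tn tn) tn tn) tn tn tn (td (td
  tn tn tn tn (td (td tn tn tn tn (td (td tn tn tn tn (td (td tn tn tn tn (tl 1)) tn tn tn tn)) tn
  tn tn tn)) tn tn tn tn)) tn tn tn tn)) tn tn tn) (td (td tn tn tn (td (td tn tn tn (td (td tn tn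
  tn tn (td (td tn tn tn tn (td (td tn tn tn tn (tl 1)) tn tn tn tn)) tn tn tn tn)) tn tn tn tn) tn)
  tn tn tn tn) tn) tn tn (td (td tn tn (td tn (td (td tn tn tn tn (td (td tn tn tn tn (td (td tn tn
  tn tn (tl 0)) tn tn tn tn)) tn tn tn tn)) tn tn tn tn) tn tn tn) tn tn) tn tn tn (td (td tn tn tn
  tn (td (td tn tn tn tn (td (td tn tn (td tn (td (tl 0) tn tn tn tn) tn tn tn) tn (td (td tn tn tn
  tn (tl 2)) tn tn tn tn)) tn tn tn tn)) tn tn tn tn)) tn tn tn tn)) tn) (td (td tn tn tn tn (td (td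
  tn tn tn tn (td (td tn tn tn tn (td (td tn tn tn tn (td (td tn tn tn tn (tl 0)) tn tn tn tn)) tn
  tn tn tn)) tn tn tn tn)) tn tn tn tn)) tn tn (td (td tn tn tn (td tn tn tn tn (td (td tn tn tn tn
  (td (td tn tn tn tn (td (td tn tn tn tn (tl 0)) tn tn tn tn)) tn tn tn tn)) tn tn tn tn)) tn) tn
  tn tn (td (td tn tn tn (td (td tn tn tn tn (td (td tn tn tn tn (td (td tn tn tn tn (tl 0)) tn tn
  tn tn)) tn tn tn tn)) tn tn tn tn) tn) tn tn tn tn)) tn)) (td (td tn tn (td tn (td (td tn tn (td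
  tn (td (td tn tn tn (td tn tn tn tn (td (td tn tn tn tn (tl 0)) tn tn tn tn)) tn) tn tn (td (td tn
  tn tn tn (td (td tn tn tn tn (tl 0)) tn tn tn tn)) tn tn tn tn) tn) tn tn tn) (td (td tn tn tn (td
  (td tn tn (td tn (td (tl 0) tn tn tn tn) tn tn tn) tn (td (td tn tn tn tn (tl 2)) tn tn tn tn)) tn
  tn tn tn) tn) tn (td tn (td (td tn tn tn tn (td (td tn tn tn tn (tl 0)) tn tn tn tn)) tn tn tn tn)
  tn tn tn) (td tn tn tn (td (td tn tn tn tn (td (td tn tn tn tn (tl 0)) tn tn tn tn)) tn tn tn tn)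
  tn) tn) tn) tn tn (td (td tn tn (td tn (td (td tn tn tn tn (td (td tn tn tn tn (tl 0)) tn tn tn
  tn)) tn tn tn tn) tn tn tn) tn tn) tn tn tn (td (td tn tn tn tn (td (td tn tn (td tn (td (tl 0) tn
  tn tn tn) tn tn tn) tn (td (td tn tn tn tn (tl 2)) tn tn tn tn)) tn tn tn tn)) tn tn tn tn)) tn)
  tn tn tn) (td (td tn tn (td tn (td (td tn tn tn (td (td tn tn (td tn (td (tl 0) tn tn tn tn) tn tn
  tn) tn (td (td tn tn tn tn (tl 2)) tn tn tn tn)) tn tn tn tn) tn) tn tn tn tn) tn tn tn) (td (td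
  tn tn (td tn (td (td tn tn (td tn (td (tl 0) tn tn tn tn) tn tn tn) tn (td (td tn tn tn tn (tl 2))
  tn tn tn tn)) tn tn tn tn) tn tn tn) (td (td tn tn tn (td tn tn tn tn (td (td tn tn tn tn (tl 0))
  tn tn tn tn)) tn) tn tn (td (td tn tn tn tn (td (td tn tn tn tn (tl 1)) tn tn tn tn)) tn tn tn tn)
  tn) (td (td tn tn tn (td (td tn tn tn (td tn tn tn tn (tl 0)) tn) tn tn tn tn) (td (td tn tn tn tn
  (td (tl 0) tn tn tn tn)) tn tn (td (td tn tn tn (tl 0) tn) tn tn tn tn) tn)) tn tn (td (td tn tn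
  tn (td (td tn tn tn tn (tl 0)) tn tn tn tn) tn) tn tn tn tn) tn)) tn tn (td (td tn tn tn (td (td
  tn tn tn tn (td (td tn tn tn tn (tl 1)) tn tn tn tn)) tn tn tn tn) tn) tn tn tn tn) (td (td tn tn
  tn (td (td tn tn tn (td (td tn tn tn tn (tl 0)) tn tn tn (td (tl 0) tn tn tn tn)) tn) tn tn tn tn)
  (td (td tn tn (td tn (td (tl 2) tn tn tn tn) tn tn tn) (td (td tn tn tn (tl 0) tn) tn tn (td (tl
  1) tn tn tn tn) tn) (td (td tn tn tn tn (tl 4)) tn tn (td tn tn tn tn (tl 0)) tn)) tn tn (td (td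
  tn tn tn (td (tl 0) tn tn tn tn) tn) tn tn tn (td (td tn tn tn tn (tl 0)) tn tn tn tn)) tn)) tn tn
  (td tn tn tn tn (td (td tn tn tn tn (td (td tn tn tn tn (tl 0)) tn tn tn tn)) tn tn tn tn)) tn))
  (td tn tn tn (td tn tn tn tn (td tn tn tn (td (td tn tn tn tn (td (td tn tn tn tn (tl 0)) tn tn tn
  tn)) tn tn tn tn) tn)) tn)) tn (td tn (td (td tn tn (td tn (td (td tn tn tn tn (td (td tn tn tn tn
  (tl 0)) tn tn tn tn)) tn tn tn tn) tn tn tn) tn tn) tn tn tn (td (td tn tn tn tn (td (td tn tn tn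
  tn (td (td tn tn tn tn (tl 1)) tn tn tn tn)) tn tn tn tn)) tn tn tn tn)) tn tn tn) (td (td tn tn
  tn (td (td tn tn tn (td (td tn tn tn tn (td (td tn tn tn tn (tl 1)) tn tn tn tn)) tn tn tn tn) tn)
  tn tn tn tn) tn) tn tn (td (td tn tn (td tn (td (td tn tn tn tn (td (td tn tn tn tn (tl 0)) tn tn
  tn tn)) tn tn tn tn) tn tn tn) tn tn) tn tn tn (td (td tn tn tn tn (td (td tn tn (td tn (td (tl 0)
  tn tn tn tn) tn tn tn) tn (td (td tn tn tn tn (tl 2)) tn tn tn tn)) tn tn tn tn)) tn tn tn tn))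
  tn) (td (td tn tn tn tn (td (td tn tn tn tn (td (td tn tn tn tn (td (td tn tn tn tn (tl 0)) tn tn
  tn tn)) tn tn tn tn)) tn tn tn tn)) tn tn (td (td tn tn tn (td tn tn tn tn (td (td tn tn tn tn (td
  (td tn tn tn tn (tl 0)) tn tn tn tn)) tn tn tn tn)) tn) tn tn tn (td (td tn tn tn (td (td tn tn tn
  tn (td (td tn tn tn tn (tl 0)) tn tn tn tn)) tn tn tn tn) tn) tn tn tn tn)) tn)) (td (td tn tn (td
  tn (td (td tn tn (td tn (td (td tn tn tn (td tn tn tn tn (tl 0)) tn) tn tn (td (td tn tn tn tn (tl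
  0)) tn tn tn tn) tn) tn tn tn) (td (td tn tn tn (td (td tn tn tn tn (tl 2)) tn tn tn tn) tn) tn
  (td tn (td (td tn tn tn tn (tl 0)) tn tn tn tn) tn tn tn) (td tn tn tn (td (td tn tn tn tn (tl 0))
  tn tn tn tn) tn) tn) tn) tn tn (td (td tn tn (td tn (td (td tn tn tn tn (tl 0)) tn tn tn tn) tn tn
  tn) tn tn) tn tn tn (td (td tn tn (td tn (td (tl 0) tn tn tn tn) tn tn tn) tn (td (td tn tn tn tn
  (tl 2)) tn tn tn tn)) tn tn tn tn)) tn) tn tn tn) (td (td tn tn (td tn (td (td tn tn tn (td (td tn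
  tn tn tn (tl 2)) tn tn tn (td (tl 2) tn tn tn tn)) tn) tn tn tn tn) tn tn tn) (td (td tn tn (td tn
  (td (td tn tn tn tn (tl 2)) tn tn tn (td (tl 1) tn tn tn tn)) tn tn tn) (td (td tn tn tn (td tn tn
  tn tn (tl 0)) tn) tn tn (td (td tn tn tn tn (tl 1)) tn tn tn (td (tl 1) tn tn tn tn)) tn) (td (td
  tn tn tn tn (td (tl 0) tn tn tn tn)) tn (td tn (td (tl 1) tn tn tn tn) tn tn tn) (td (td tn tn tn
  (tl 0) tn) tn tn (td (tl 1) tn tn tn tn) tn) tn)) tn tn (td (td tn tn tn (td (td tn tn tn tn (tl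
  1)) tn tn tn (td (tl 1) tn tn tn tn)) tn) tn tn tn tn) (td (td tn tn (td tn (td (tl 2) tn tn tn
  tn) tn tn tn) (td (td tn tn tn (tl 0) tn) tn tn (td (tl 1) tn tn tn tn) tn) (td (td tn tn tn tn
  (tl 4)) tn tn (td tn tn tn tn (tl 0)) tn)) tn tn (td (td tn tn tn (td (tl 0) tn tn tn tn) tn) tn
  tn tn (td (td tn tn tn tn (tl 0)) tn tn tn tn)) tn)) (td tn tn tn (td tn tn tn tn (td tn tn tn (td
  (td tn tn tn tn (tl 0)) tn tn tn (td (tl 0) tn tn tn tn)) tn)) tn)) tn (td tn (td (td tn tn (td tn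
  (td (td tn tn tn tn (tl 0)) tn tn tn tn) tn tn tn) tn tn) tn tn tn (td (td tn tn tn tn (td (td tn
  tn tn tn (tl 1)) tn tn tn tn)) tn tn tn tn)) tn tn tn) (td (td tn tn tn (td (td tn tn tn (td (td
  tn tn tn tn (tl 1)) tn tn tn tn) tn) tn tn tn tn) tn) tn tn (td (td tn tn (td tn (td (td tn tn tn
  tn (tl 0)) tn tn tn tn) tn tn tn) tn tn) tn tn tn (td (td tn tn (td tn (td (tl 0) tn tn tn tn) tn
  tn tn) tn (td (td tn tn tn tn (tl 2)) tn tn tn tn)) tn tn tn tn)) tn) (td (td tn tn tn tn (td (td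
  tn tn tn tn (td (td tn tn tn tn (tl 0)) tn tn tn tn)) tn tn tn tn)) tn tn (td (td tn tn tn (td tn
  tn tn tn (td (td tn tn tn tn (tl 0)) tn tn tn tn)) tn) tn tn tn (td (td tn tn tn (td (td tn tn tn
  tn (tl 0)) tn tn tn (td (tl 0) tn tn tn tn)) tn) tn tn tn tn)) tn)) (td (td tn tn (td tn (td (td
  tn tn (td tn (td tn tn tn (tl 0) tn) tn tn tn) (td (td tn tn tn (tl 2) tn) tn (td tn (tl 0) tn tn
  tn) (td tn tn tn (tl 0) tn) tn) tn) tn tn (td (td tn tn (td tn (tl 0) tn tn tn) tn tn) tn tn tn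
  (td (td tn tn tn tn (tl 2)) tn tn tn tn)) tn) tn tn tn) (td (td tn tn (td tn (td (td tn tn tn (tl
  2) tn) tn tn tn tn) tn tn tn) (td (td tn tn (td tn (tl 2) tn tn tn) (td tn tn tn (tl 1) tn) (td
  (tl 0) tn tn tn tn)) tn tn (td (td tn tn tn (tl 1) tn) tn tn tn tn) (td (td tn tn tn tn (tl 4)) tn
  tn (td tn tn tn tn (tl 0)) tn)) (td tn tn tn (td tn tn tn tn (td tn tn tn (tl 0) tn)) tn)) tn (td
  tn (td (td tn tn (td tn (tl 0) tn tn tn) tn tn) tn tn tn (td (td tn tn tn tn (tl 1)) tn tn tn tn))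
  tn tn tn) (td (td tn tn tn (td (td tn tn tn (tl 1) tn) tn tn tn tn) tn) tn tn (td (td tn tn (td tn
  (tl 0) tn tn tn) tn tn) tn tn tn (td (td tn tn tn tn (tl 2)) tn tn tn tn)) tn) (td (td tn tn tn tn
  (td (td tn tn tn tn (tl 0)) tn tn tn tn)) tn tn (td (td tn tn tn (td tn tn tn tn (tl 0)) tn) tn tn
  tn (td (td tn tn tn (tl 0) tn) tn tn tn tn)) tn)) (td (td tn tn (td tn (td tn tn tn (td tn tn tn
  tn (tl 2)) tn) tn tn tn) (td (td tn tn tn (td (tl 0) tn tn tn (tl 4)) tn) tn (td tn (td tn tn tn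
  tn (tl 1)) tn tn tn) (td tn tn tn (td tn tn tn tn (tl 2)) tn) (td (td tn tn tn tn (tl 0)) tn tn tn
  tn)) (td (td tn tn tn (td tn tn tn tn (tl 0)) (td (tl 4) tn tn (tl 0) tn)) tn (td tn (td tn tn tn
  (tl 1) tn) tn tn tn) (td (td tn tn tn (tl 4) (tl 0)) tn (td tn (tl 2) tn tn tn) (td tn tn tn (tl
  2) tn) (td (tl 0) tn tn tn tn)) tn)) tn (td tn (td (td tn tn tn (td tn tn tn tn (tl 1)) tn) tn tn
  (td (td tn tn tn tn (tl 1)) tn tn tn tn) tn) tn tn tn) (td (td tn tn (td tn (td tn tn tn tn (tl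
  1)) tn tn tn) (td (td tn tn tn tn (tl 4)) tn tn (td tn tn tn tn (tl 1)) (td tn tn tn (tl 0) tn))
  (td (td tn tn tn tn (tl 0)) tn tn tn tn)) tn (td tn (td (td tn tn tn tn (tl 2)) tn tn tn tn) tn tn
  tn) (td (td tn tn tn (td tn tn tn tn (tl 1)) tn) tn tn (td (td tn tn tn tn (tl 2)) tn tn tn tn)
  tn) (td (td tn tn tn tn (td (tl 0) tn tn tn tn)) tn (td tn (td (tl 1) tn tn tn tn) tn tn tn) (td
  (td tn tn tn (tl 0) tn) tn tn (td (tl 1) tn tn tn tn) tn) tn)) tn)) tn (td tn (td (td tn tn tn (td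
  tn tn tn tn (td (td tn tn tn tn (tl 1)) tn tn tn tn)) tn) tn tn (td (td tn tn tn tn (td (td tn tn
  tn tn (tl 1)) tn tn tn tn)) tn tn tn tn) tn) tn tn tn) (td (td tn tn (td tn (td (td tn tn (td tn
  (tl 0) tn tn tn) tn tn) tn tn tn (td (td tn tn tn tn (tl 1)) tn tn tn tn)) tn tn tn) (td (td tn tn
  (td tn (td (tl 2) tn tn tn tn) tn tn tn) (td (td tn tn tn (tl 0) tn) tn tn (td (tl 1) tn tn tn tn)
  tn) (td (td tn tn tn tn (tl 4)) tn tn (td tn tn tn tn (tl 0)) tn)) tn tn (td tn tn tn tn (td (td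
  tn tn tn tn (tl 1)) tn tn tn tn)) (td tn tn tn (td (td tn tn tn tn (tl 0)) tn tn tn (td (tl 0) tn
  tn tn tn)) tn)) (td (td tn tn tn tn (td (td tn tn tn tn (tl 0)) tn tn tn tn)) tn tn tn tn)) tn (td
  tn (td (td tn tn (td tn (td (tl 0) tn tn tn tn) tn tn tn) tn (td (td tn tn tn tn (tl 2)) tn tn tn
  tn)) tn tn tn tn) tn tn tn) (td (td tn tn tn (td tn tn tn tn (td (td tn tn tn tn (tl 1)) tn tn tn
  tn)) tn) tn tn (td (td tn tn (td tn (td (tl 0) tn tn tn tn) tn tn tn) tn (td (td tn tn tn tn (tl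
  2)) tn tn tn tn)) tn tn tn tn) tn) (td (td tn tn tn (td (td tn tn tn (td tn tn tn tn (tl 0)) tn)
  tn tn tn tn) (td (td tn tn tn tn (td (tl 0) tn tn tn tn)) tn tn (td (td tn tn tn (tl 0) tn) tn tn
  tn tn) tn)) tn tn (td (td tn tn tn (td (td tn tn tn tn (tl 0)) tn tn tn tn) tn) tn tn tn tn) tn))
  tn)) tn (td tn (td (td tn tn tn (td tn tn tn tn (td (td tn tn tn tn (td (td tn tn tn tn (tl 1)) tn
  tn tn tn)) tn tn tn tn)) tn) tn tn (td (td tn tn tn tn (td (td tn tn tn tn (td (td tn tn tn tn (tl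
  1)) tn tn tn tn)) tn tn tn tn)) tn tn tn tn) tn) tn tn tn) (td (td tn tn (td tn (td (td tn tn (td
  tn (td (td tn tn tn tn (tl 0)) tn tn tn tn) tn tn tn) tn tn) tn tn tn (td (td tn tn tn tn (td (td
  tn tn tn tn (tl 1)) tn tn tn tn)) tn tn tn tn)) tn tn tn) (td (td tn tn tn (td (td tn tn tn (td
  (td tn tn tn tn (tl 0)) tn tn tn (td (tl 0) tn tn tn tn)) tn) tn tn tn tn) (td (td tn tn (td tn
  (td (tl 2) tn tn tn tn) tn tn tn) (td (td tn tn tn (tl 0) tn) tn tn (td (tl 1) tn tn tn tn) tn)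
  (td (td tn tn tn tn (tl 4)) tn tn (td tn tn tn tn (tl 0)) tn)) tn tn (td (td tn tn tn (td (tl 0)
  tn tn tn tn) tn) tn tn tn (td (td tn tn tn tn (tl 0)) tn tn tn tn)) tn)) tn tn (td tn tn tn tn (td
  (td tn tn tn tn (td (td tn tn tn tn (tl 1)) tn tn tn tn)) tn tn tn tn)) (td (td tn tn tn tn (td
  (td tn tn tn (td tn tn tn tn (tl 0)) tn) tn tn tn tn)) tn tn (td (td tn tn tn tn (td (td tn tn tn
  tn (tl 0)) tn tn tn tn)) tn tn tn (td (td tn tn tn tn (td (tl 0) tn tn tn tn)) tn tn (td (td tn tn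
  tn (tl 0) tn) tn tn tn tn) tn)) tn)) (td (td tn tn tn tn (td (td tn tn tn (td tn tn tn tn (td tn
  tn tn (tl 0) tn)) (td (td tn tn tn tn (tl 0)) tn tn tn tn)) tn tn tn tn)) tn tn (td (td tn tn tn
  tn (td (td tn tn tn tn (td tn tn tn (tl 0) tn)) tn tn tn tn)) tn tn tn tn) tn)) tn (td tn (td (td
  tn tn tn tn (td (td tn tn (td tn (td (tl 0) tn tn tn tn) tn tn tn) tn (td (td tn tn tn tn (tl 2))
  tn tn tn tn)) tn tn tn tn)) tn tn tn tn) tn tn tn) (td (td tn tn tn (td tn tn tn tn (td (td tn tn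
  tn tn (td (td tn tn tn tn (tl 1)) tn tn tn tn)) tn tn tn tn)) tn) tn tn (td (td tn tn tn tn (td
  (td tn tn (td tn (td (tl 0) tn tn tn tn) tn tn tn) tn (td (td tn tn tn tn (tl 2)) tn tn tn tn)) tn
  tn tn tn)) tn tn tn tn) tn) (td (td tn tn tn (td (td tn tn tn (td tn tn tn tn (td (td tn tn tn tn
  (tl 0)) tn tn tn tn)) tn) tn tn tn tn) (td (td tn tn tn (td (td tn tn tn (td tn tn tn tn (tl 0))
  tn) tn tn tn (td (td tn tn tn (tl 0) tn) tn tn tn tn)) (td (td tn tn tn tn (td (tl 0) tn tn tn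
  tn)) tn tn (td (td tn tn tn (tl 0) tn) tn tn tn tn) tn)) tn tn (td (td tn tn tn (td (td tn tn tn
  tn (tl 0)) tn tn tn tn) tn) tn tn tn tn) tn)) tn tn (td (td tn tn tn (td (td tn tn tn tn (td (td
  tn tn tn tn (tl 0)) tn tn tn tn)) tn tn tn tn) (td (td tn tn tn tn (td (td tn tn tn (tl 0) tn) tn
  tn tn tn)) tn tn tn tn)) tn tn tn tn) tn)) tn)) tn (td tn (td (td tn tn tn (td tn tn tn tn (td (td
  tn tn tn tn (td (td tn tn tn tn (td (td tn tn tn tn (tl 1)) tn tn tn tn)) tn tn tn tn)) tn tn tn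
  tn)) tn) tn tn (td (td tn tn tn tn (td (td tn tn tn tn (td (td tn tn tn tn (td (td tn tn tn tn (tl
  1)) tn tn tn tn)) tn tn tn tn)) tn tn tn tn)) tn tn tn tn) tn) tn tn tn) (td (td tn tn (td tn (td
  (td tn tn (td tn (td (td tn tn tn tn (td (td tn tn tn tn (tl 0)) tn tn tn tn)) tn tn tn tn) tn tn
  tn) tn tn) tn tn tn (td (td tn tn tn tn (td (td tn tn tn tn (td (td tn tn tn tn (tl 1)) tn tn tn
  tn)) tn tn tn tn)) tn tn tn tn)) tn tn tn) (td (td tn tn tn (td (td tn tn tn (td (td tn tn tn tn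
  (td (td tn tn tn tn (tl 0)) tn tn tn tn)) tn tn tn tn) tn) tn tn tn tn) (td (td tn tn tn (td (td
  tn tn tn (td (td tn tn tn tn (tl 0)) tn tn tn (td (tl 0) tn tn tn tn)) tn) tn tn tn tn) (td (td tn
  tn (td tn (td (tl 2) tn tn tn tn) tn tn tn) (td (td tn tn tn (tl 0) tn) tn tn (td (tl 1) tn tn tn
  tn) tn) (td (td tn tn tn tn (tl 4)) tn tn (td tn tn tn tn (tl 0)) tn)) tn tn (td (td tn tn tn (td
  (tl 0) tn tn tn tn) tn) tn tn tn (td (td tn tn tn tn (tl 0)) tn tn tn tn)) tn)) tn tn (td tn tn tn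
  tn (td (td tn tn tn tn (td (td tn tn tn tn (tl 0)) tn tn tn tn)) tn tn tn tn)) tn)) tn tn (td tn
  tn tn tn (td (td tn tn tn tn (td (td tn tn tn tn (td (td tn tn tn tn (tl 1)) tn tn tn tn)) tn tn
  tn tn)) tn tn tn tn)) (td tn tn tn (td (td tn tn tn tn (td (td tn tn tn tn (td (td tn tn tn tn (tl
  0)) tn tn tn tn)) tn tn tn tn)) tn tn tn tn) tn)) (td (td tn tn tn tn (td (td tn tn tn tn (td (td
  tn tn tn tn (td (td tn tn tn tn (tl 0)) tn tn tn tn)) tn tn tn tn)) tn tn tn tn)) tn tn tn tn)) tn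
  (td tn (td (td tn tn tn tn (td (td tn tn tn tn (td (td tn tn (td tn (td (tl 0) tn tn tn tn) tn tn
  tn) tn (td (td tn tn tn tn (tl 2)) tn tn tn tn)) tn tn tn tn)) tn tn tn tn)) tn tn tn tn) tn tn
  tn) (td (td tn tn tn (td tn tn tn tn (td (td tn tn tn tn (td (td tn tn tn tn (td (td tn tn tn tn
  (tl 1)) tn tn tn tn)) tn tn tn tn)) tn tn tn tn)) tn) tn tn (td (td tn tn tn tn (td (td tn tn tn
  tn (td (td tn tn (td tn (td (tl 0) tn tn tn tn) tn tn tn) tn (td (td tn tn tn tn (tl 2)) tn tn tn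
  tn)) tn tn tn tn)) tn tn tn tn)) tn tn tn tn) tn) (td (td tn tn tn (td (td tn tn tn (td tn tn tn
  tn (td (td tn tn tn tn (td (td tn tn tn tn (tl 0)) tn tn tn tn)) tn tn tn tn)) tn) tn tn tn tn)
  (td (td tn tn tn (td (td tn tn tn (td tn tn tn tn (td (td tn tn tn tn (tl 0)) tn tn tn tn)) tn) tn
  tn tn tn) (td (td tn tn tn (td (td tn tn tn (td tn tn tn tn (tl 0)) tn) tn tn tn tn) (td (td tn tn
  tn tn (td (tl 0) tn tn tn tn)) tn tn (td (td tn tn tn (tl 0) tn) tn tn tn tn) tn)) tn tn (td (td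
  tn tn tn (td (td tn tn tn tn (tl 0)) tn tn tn tn) tn) tn tn tn tn) tn)) tn tn (td (td tn tn tn (td
  (td tn tn tn tn (td (td tn tn tn tn (tl 0)) tn tn tn tn)) tn tn tn tn) tn) tn tn tn tn) tn)) tn tn
  (td (td tn tn (td tn (td (td tn tn (td tn (td (td tn tn tn (tl 0) tn) tn tn tn tn) tn tn tn) (td
  (td tn tn (td tn (tl 0) tn tn tn) tn tn) tn tn tn tn) tn) tn tn tn tn) tn tn tn) (td (td tn tn (td
  tn (td (td tn tn (td tn (tl 0) tn tn tn) tn tn) tn tn tn tn) tn tn tn) tn (td (td tn tn tn tn (td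
  (td tn tn tn tn (tl 0)) tn tn tn tn)) tn tn tn tn)) tn tn tn tn) tn) tn tn tn tn) tn)) tn))

/-- states after twelve rows, last letters R B -/
def D12BR : Tr :=
  (td tn (td (td tn tn tn (td tn tn tn tn (td (td tn tn tn tn (td (td tn tn tn tn (td (td tn tn tn
  tn (td (td tn tn tn tn (tl 1)) tn tn tn tn)) tn tn tn tn)) tn tn tn tn)) tn tn tn tn)) tn) tn tn
  (td (td tn tn tn tn (td (td tn tn tn tn (td (td tn tn tn tn (td (td tn tn tn tn (td (td tn tn tn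
  tn (tl 1)) tn tn tn tn)) tn tn tn tn)) tn tn tn tn)) tn tn tn tn)) tn tn tn tn) tn) tn tn tn)

/-- states after twelve rows, last letters T B -/
def D12BT : Tr :=
  (td (td tn tn (td tn (td (td tn tn (td tn (td (td tn tn tn tn (td (td tn tn tn tn (td (td tn tn tn
  tn (tl 0)) tn tn tn tn)) tn tn tn tn)) tn tn tn tn) tn tn tn) tn tn) tn tn tn (td (td tn tn tn tn
  (td (td tn tn tn tn (td (td tn tn tn tn (td (td tn tn tn tn (tl 1)) tn tn tn tn)) tn tn tn tn)) tn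
  tn tn tn)) tn tn tn tn)) tn tn tn) (td (td tn tn tn (td (td tn tn tn (td (td tn tn tn tn (td (td
  tn tn tn tn (td (td tn tn tn tn (tl 0)) tn tn tn tn)) tn tn tn tn)) tn tn tn tn) tn) tn tn tn tn)
  (td (td tn tn tn (td (td tn tn tn (td (td tn tn tn tn (td (td tn tn tn tn (tl 0)) tn tn tn tn)) tn
  tn tn tn) tn) tn tn tn tn) (td (td tn tn tn (td (td tn tn tn (td (td tn tn tn tn (tl 0)) tn tn tn
  (td (tl 0) tn tn tn tn)) tn) tn tn tn tn) (td (td tn tn (td tn (td (tl 2) tn tn tn tn) tn tn tn)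
  (td (td tn tn tn (tl 0) tn) tn tn (td (tl 1) tn tn tn tn) tn) (td (td tn tn tn tn (tl 4)) tn tn
  (td tn tn tn tn (tl 0)) tn)) tn tn (td (td tn tn tn (td (tl 0) tn tn tn tn) tn) tn tn tn (td (td
  tn tn tn tn (tl 0)) tn tn tn tn)) tn)) tn tn (td tn tn tn tn (td (td tn tn tn tn (td (td tn tn tn
  tn (tl 0)) tn tn tn tn)) tn tn tn tn)) tn)) tn tn (td tn tn tn tn (td (td tn tn tn tn (td (td tn
  tn tn tn (td (td tn tn tn tn (tl 0)) tn tn tn tn)) tn tn tn tn)) tn tn tn tn)) tn)) tn tn (td tn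
  tn tn tn (td (td tn tn tn tn (td (td tn tn tn tn (td (td tn tn tn tn (td (td tn tn tn tn (tl 1))
  tn tn tn tn)) tn tn tn tn)) tn tn tn tn)) tn tn tn tn)) (td tn tn tn (td (td tn tn tn tn (td (td
  tn tn tn tn (td (td tn tn tn tn (td (td tn tn tn tn (tl 0)) tn tn tn tn)) tn tn tn tn)) tn tn tn
  tn)) tn tn tn tn) tn)) (td (td tn tn tn tn (td (td tn tn tn tn (td (td tn tn tn tn (td (td tn tn
  tn tn (td (td tn tn tn tn (tl 0)) tn tn tn tn)) tn tn tn tn)) tn tn tn tn)) tn tn (td (td tn tn tn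
  (td tn tn tn tn (td (td tn tn tn tn (td (td tn tn tn tn (tl 0)) tn tn tn tn)) tn tn tn tn)) tn) tn
  tn tn tn) tn)) tn tn tn tn)) tn (td tn (td (td tn tn tn tn (td (td tn tn tn tn (td (td tn tn tn tn
  (td (td tn tn (td tn (td (tl 0) tn tn tn tn) tn tn tn) tn (td (td tn tn tn tn (tl 2)) tn tn tn
  tn)) tn tn tn tn)) tn tn tn tn)) tn tn tn tn)) tn tn tn tn) tn tn tn) (td (td tn tn tn (td tn tn
  tn tn (td (td tn tn tn tn (td (td tn tn tn tn (td (td tn tn tn tn (td (td tn tn tn tn (tl 1)) tn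
  tn tn tn)) tn tn tn tn)) tn tn tn tn)) tn tn tn tn)) tn) tn tn (td (td tn tn tn tn (td (td tn tn
  tn tn (td (td tn tn tn tn (td (td tn tn (td tn (td (tl 0) tn tn tn tn) tn tn tn) tn (td (td tn tn
  tn tn (tl 2)) tn tn tn tn)) tn tn tn tn)) tn tn tn tn)) tn tn tn tn)) tn tn tn tn) tn) (td (td tn
  tn tn (td (td tn tn tn (td tn tn tn tn (td (td tn tn tn tn (td (td tn tn tn tn (td (td tn tn tn tn
  (tl 0)) tn tn tn tn)) tn tn tn tn)) tn tn tn tn)) tn) tn tn tn tn) (td (td tn tn tn (td (td tn tn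
  tn (td tn tn tn tn (td (td tn tn tn tn (td (td tn tn tn tn (tl 0)) tn tn tn tn)) tn tn tn tn)) tn)
  tn tn tn tn) (td (td tn tn tn (td (td tn tn tn (td tn tn tn tn (td (td tn tn tn tn (tl 0)) tn tn
  tn tn)) tn) tn tn tn tn) (td (td tn tn tn (td (td tn tn tn (td tn tn tn tn (tl 0)) tn) tn tn tn
  tn) (td (td tn tn tn tn (td (tl 0) tn tn tn tn)) tn tn (td (td tn tn tn (tl 0) tn) tn tn tn tn)
  tn)) tn tn (td (td tn tn tn (td (td tn tn tn tn (tl 0)) tn tn tn tn) tn) tn tn tn tn) tn)) tn tn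
  (td (td tn tn tn (td (td tn tn tn tn (td (td tn tn tn tn (tl 0)) tn tn tn tn)) tn tn tn tn) tn) tn
  tn tn tn) tn)) tn tn (td (td tn tn tn (td (td tn tn tn tn (td (td tn tn tn tn (td (td tn tn tn tn
  (tl 0)) tn tn tn tn)) tn tn tn tn)) tn tn tn tn) tn) tn tn tn tn) tn)) tn tn (td (td tn tn tn (td
  (td tn tn tn tn (td (td tn tn tn tn (td (td tn tn tn tn (td (td tn tn tn tn (tl 0)) tn tn tn tn))
  tn tn tn tn)) tn tn tn tn)) tn tn tn tn) tn) tn tn tn tn) tn))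

/-- states after twelve rows, last letter O -/
def D12O : Tr := td tn tn D12OR D12OT D12OB

/-- states after twelve rows, last letter R -/
def D12R : Tr := td tn D12RL tn tn tn

/-- states after twelve rows, last letter T -/
def D12T : Tr := td D12TO tn D12TR D12TT D12TB

/-- states after twelve rows, last letter B -/
def D12B : Tr := td D12BO tn D12BR D12BT tn

/-- the states after twelve rows -/
def D12 : Tr := td D12O tn D12R D12T D12B

end Pool.Agent.H17Gun
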