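import Mathlib.Data.List.Basic
import Mathlib.Data.Fintype.Basic
import Mathlib.Tactic.DeriveFintype

set_option autoImplicit false

namespace Pool.Agent.H17Gun

/-- the type of a cell: hole, left / right half of a horizontal domino, upper / lower half of a
vertical domino, cell outside the board -/
inductive Ty | O | L | R | T | B | X
deriving DecidableEq

/-- lists of types with costs `0`, `1`, `2` or `3` -/
inductive OL
  | nil : OL
  | c0 : Ty → OL → OL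
  | c1 : Ty → OL → OL
  | c2 : Ty → OL → OL
  | c3 : Ty → OL → OL

/-- the admissible types of a cell, with costs, given the types of the cells above left, above and to the left -/
noncomputable def opts (a b c : Ty) : OL :=
  @Ty.rec (fun _ => Ty → Ty → OL)
    (@Ty.rec (fun _ => Ty → OL)
      (@Ty.rec (fun _ => OL) OL.nil OL.nil OL.nil OL.nil OL.nil OL.nil)
      (@Ty.rec (fun _ => OL) OL.nil (OL.c0 Ty.R OL.nil) (OL.c0 Ty.O (OL.c2 Ty.L (OL.c2 Ty.T OL.nil))) (OL.c0 Ty.O (OL.c1 Ty.L (OL.c1 Ty.T OL.nil))) OL.nil (OL.c0 Ty.O (OL.c0 Ty.L (OL.c1 Ty.T OL.nil))))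
      (@Ty.rec (fun _ => OL) OL.nil OL.nil OL.nil OL.nil OL.nil OL.nil)
      (@Ty.rec (fun _ => OL) OL.nil OL.nil (OL.c1 Ty.B OL.nil) (OL.c0 Ty.B OL.nil) OL.nil (OL.c0 Ty.B OL.nil))
      (@Ty.rec (fun _ => OL) OL.nil (OL.c1 Ty.R OL.nil) (OL.c0 Ty.O (OL.c3 Ty.L (OL.c3 Ty.T OL.nil))) (OL.c0 Ty.O (OL.c2 Ty.L (OL.c2 Ty.T OL.nil))) OL.nil (OL.c0 Ty.O (OL.c1 Ty.L (OL.c2 Ty.T OL.nil))))
      (@Ty.rec (fun _ => OL) OL.nil (OL.c0 Ty.R OL.nil) (OL.c0 Ty.O (OL.c1 Ty.T (OL.c2 Ty.L OL.nil))) (OL.c0 Ty.O (OL.c0 Ty.T (OL.c1 Ty.L OL.nil))) OL.nil (OL.c0 Ty.O (OL.c0 Ty.L (OL.c0 Ty.T OL.nil)))))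
    (@Ty.rec (fun _ => Ty → OL)
      (@Ty.rec (fun _ => OL) OL.nil OL.nil OL.nil OL.nil OL.nil OL.nil)
      (@Ty.rec (fun _ => OL) OL.nil OL.nil OL.nil OL.nil OL.nil OL.nil)
      (@Ty.rec (fun _ => OL) (OL.c0 Ty.L (OL.c1 Ty.T OL.nil)) (OL.c2 Ty.R OL.nil) (OL.c0 Ty.O (OL.c3 Ty.L (OL.c3 Ty.T OL.nil))) (OL.c0 Ty.O (OL.c2 Ty.L (OL.c2 Ty.T OL.nil))) OL.nil (OL.c0 Ty.O (OL.c0 Ty.L (OL.c1 Ty.T OL.nil))))
      (@Ty.rec (fun _ => OL) OL.nil OL.nil OL.nil OL.nil OL.nil OL.nil)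
      (@Ty.rec (fun _ => OL) OL.nil OL.nil OL.nil OL.nil OL.nil OL.nil)
      (@Ty.rec (fun _ => OL) OL.nil OL.nil OL.nil OL.nil OL.nil OL.nil))
    (@Ty.rec (fun _ => Ty → OL)
      (@Ty.rec (fun _ => OL) (OL.c0 Ty.L (OL.c0 Ty.T OL.nil)) (OL.c0 Ty.R OL.nil) (OL.c1 Ty.T (OL.c2 Ty.L OL.nil)) (OL.c0 Ty.T (OL.c1 Ty.L OL.nil)) OL.nil (OL.c0 Ty.L (OL.c0 Ty.T OL.nil)))
      (@Ty.rec (fun _ => OL) (OL.c0 Ty.L (OL.c1 Ty.T OL.nil)) (OL.c1 Ty.R OL.nil) (OL.c0 Ty.O (OL.c2 Ty.L (OL.c2 Ty.T OL.nil))) (OL.c0 Ty.O (OL.c1 Ty.L (OL.c1 Ty.T OL.nil))) OL.nil (OL.c0 Ty.O (OL.c0 Ty.L (OL.c1 Ty.T OL.nil))))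
      (@Ty.rec (fun _ => OL) OL.nil OL.nil OL.nil OL.nil OL.nil OL.nil)
      (@Ty.rec (fun _ => OL) (OL.c0 Ty.B OL.nil) OL.nil (OL.c2 Ty.B OL.nil) (OL.c1 Ty.B OL.nil) OL.nil (OL.c0 Ty.B OL.nil))
      (@Ty.rec (fun _ => OL) (OL.c1 Ty.L (OL.c2 Ty.T OL.nil)) (OL.c2 Ty.R OL.nil) (OL.c0 Ty.O (OL.c3 Ty.L (OL.c3 Ty.T OL.nil))) (OL.c0 Ty.O (OL.c2 Ty.L (OL.c2 Ty.T OL.nil))) OL.nil (OL.c0 Ty.O (OL.c1 Ty.L (OL.c2 Ty.T OL.nil))))
      (@Ty.rec (fun _ => OL) (OL.c0 Ty.L (OL.c0 Ty.T OL.nil)) (OL.c0 Ty.R OL.nil) (OL.c0 Ty.O (OL.c1 Ty.T (OL.c2 Ty.L OL.nil))) (OL.c0 Ty.O (OL.c0 Ty.T (OL.c1 Ty.L OL.nil))) OL.nil (OL.c0 Ty.O (OL.c0 Ty.L (OL.c0 Ty.T OL.nil)))))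
    (@Ty.rec (fun _ => Ty → OL)
      (@Ty.rec (fun _ => OL) OL.nil OL.nil OL.nil OL.nil (OL.c0 Ty.T (OL.c1 Ty.L OL.nil)) OL.nil)
      (@Ty.rec (fun _ => OL) OL.nil OL.nil OL.nil OL.nil (OL.c0 Ty.O (OL.c2 Ty.L (OL.c2 Ty.T OL.nil))) OL.nil)
      (@Ty.rec (fun _ => OL) OL.nil OL.nil OL.nil OL.nil OL.nil OL.nil)
      (@Ty.rec (fun _ => OL) OL.nil OL.nil OL.nil OL.nil (OL.c2 Ty.B OL.nil) OL.nil)
      (@Ty.rec (fun _ => OL) OL.nil OL.nil OL.nil OL.nil (OL.c0 Ty.O (OL.c3 Ty.L (OL.c3 Ty.T OL.nil))) OL.nil)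
      (@Ty.rec (fun _ => OL) OL.nil OL.nil OL.nil OL.nil (OL.c0 Ty.O (OL.c0 Ty.T (OL.c1 Ty.L OL.nil))) OL.nil))
    (@Ty.rec (fun _ => Ty → OL)
      (@Ty.rec (fun _ => OL) (OL.c0 Ty.L (OL.c0 Ty.T OL.nil)) (OL.c0 Ty.R OL.nil) (OL.c1 Ty.T (OL.c2 Ty.L OL.nil)) (OL.c0 Ty.T (OL.c1 Ty.L OL.nil)) OL.nil (OL.c0 Ty.L (OL.c0 Ty.T OL.nil)))
      (@Ty.rec (fun _ => OL) (OL.c0 Ty.L (OL.c1 Ty.T OL.nil)) (OL.c1 Ty.R OL.nil) (OL.c0 Ty.O (OL.c2 Ty.L (OL.c2 Ty.T OL.nil))) (OL.c0 Ty.O (OL.c1 Ty.L (OL.c1 Ty.T OL.nil))) OL.nil (OL.c0 Ty.O (OL.c0 Ty.L (OL.c1 Ty.T OL.nil))))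
      (@Ty.rec (fun _ => OL) OL.nil OL.nil OL.nil OL.nil OL.nil OL.nil)
      (@Ty.rec (fun _ => OL) (OL.c0 Ty.B OL.nil) OL.nil (OL.c2 Ty.B OL.nil) (OL.c1 Ty.B OL.nil) OL.nil (OL.c0 Ty.B OL.nil))
      (@Ty.rec (fun _ => OL) (OL.c1 Ty.L (OL.c2 Ty.T OL.nil)) (OL.c2 Ty.R OL.nil) (OL.c0 Ty.O (OL.c3 Ty.L (OL.c3 Ty.T OL.nil))) (OL.c0 Ty.O (OL.c2 Ty.L (OL.c2 Ty.T OL.nil))) OL.nil (OL.c0 Ty.O (OL.c1 Ty.L (OL.c2 Ty.T OL.nil))))
      (@Ty.rec (fun _ => OL) (OL.c0 Ty.L (OL.c0 Ty.T OL.nil)) (OL.c0 Ty.R OL.nil) (OL.c0 Ty.O (OL.c1 Ty.T (OL.c2 Ty.L OL.nil))) (OL.c0 Ty.O (OL.c0 Ty.T (OL.c1 Ty.L OL.nil))) OL.nil (OL.c0 Ty.O (OL.c0 Ty.L (OL.c0 Ty.T OL.nil)))))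
    (@Ty.rec (fun _ => Ty → OL)
      (@Ty.rec (fun _ => OL) (OL.c0 Ty.L (OL.c0 Ty.T OL.nil)) (OL.c0 Ty.R OL.nil) (OL.c1 Ty.T (OL.c2 Ty.L OL.nil)) (OL.c0 Ty.T (OL.c1 Ty.L OL.nil)) OL.nil (OL.c0 Ty.L (OL.c0 Ty.T OL.nil)))
      (@Ty.rec (fun _ => OL) (OL.c0 Ty.L (OL.c1 Ty.T OL.nil)) (OL.c0 Ty.R OL.nil) (OL.c0 Ty.O (OL.c2 Ty.L (OL.c2 Ty.T OL.nil))) (OL.c0 Ty.O (OL.c1 Ty.L (OL.c1 Ty.T OL.nil))) OL.nil (OL.c0 Ty.O (OL.c1 Ty.L (OL.c2 Ty.T OL.nil))))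
      (@Ty.rec (fun _ => OL) OL.nil OL.nil OL.nil OL.nil OL.nil OL.nil)
      (@Ty.rec (fun _ => OL) (OL.c0 Ty.B OL.nil) OL.nil (OL.c1 Ty.B OL.nil) (OL.c0 Ty.B OL.nil) OL.nil (OL.c0 Ty.B OL.nil))
      (@Ty.rec (fun _ => OL) (OL.c1 Ty.L (OL.c2 Ty.T OL.nil)) (OL.c1 Ty.R OL.nil) (OL.c0 Ty.O (OL.c3 Ty.L (OL.c3 Ty.T OL.nil))) (OL.c0 Ty.O (OL.c2 Ty.L (OL.c2 Ty.T OL.nil))) OL.nil (OL.c0 Ty.O (OL.c2 Ty.L (OL.c3 Ty.T OL.nil))))
      (@Ty.rec (fun _ => OL) (OL.c0 Ty.L (OL.c0 Ty.T OL.nil)) (OL.c0 Ty.R OL.nil) (OL.c0 Ty.O (OL.c2 Ty.T (OL.c3 Ty.L OL.nil))) (OL.c0 Ty.O (OL.c1 Ty.T (OL.c2 Ty.L OL.nil))) OL.nil (OL.c0 Ty.O (OL.c2 Ty.L (OL.c2 Ty.T OL.nil)))))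
    a b c

/-- cost (if admissible) of the window at the right border of the board -/
noncomputable def endc (a c : Ty) : Option ℕ :=
  @Ty.rec (fun _ => Ty → Option ℕ)
    (@Ty.rec (fun _ => Option ℕ) none none (some 0) (some 0) none none)
    (@Ty.rec (fun _ => Option ℕ) none none none none none none)
    (@Ty.rec (fun _ => Option ℕ) (some 0) none (some 1) (some 1) none none)
    (@Ty.rec (fun _ => Option ℕ) none none none none (some 0) none)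
    (@Ty.rec (fun _ => Option ℕ) (some 0) none (some 1) (some 1) none none)
    (@Ty.rec (fun _ => Option ℕ) (some 0) none (some 2) (some 2) none none)
    a c

/-- cost (if admissible) of the windows at the lower border of the board -/
noncomputable def botc (a b : Ty) : Option ℕ :=
  @Ty.rec (fun _ => Ty → Option ℕ)
    (@Ty.rec (fun _ => Option ℕ) none (some 0) none none (some 0) (some 0))
    (@Ty.rec (fun _ => Option ℕ) none none (some 0) none none none)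
    (@Ty.rec (fun _ => Option ℕ) (some 0) (some 1) none none (some 1) (some 2))
    (@Ty.rec (fun _ => Option ℕ) none none none none none none)
    (@Ty.rec (fun _ => Option ℕ) (some 0) (some 1) none none (some 1) (some 2))
    (@Ty.rec (fun _ => Option ℕ) (some 0) (some 2) none none (some 2) (some 0))
    a b

/-- finite sets of words over the five types with a number attached to each word -/
inductive Tr
  | nil : Tr
  | leaf : ℕ → Tr
  | node : Tr → Tr → Tr → Tr → Tr → Tr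

/-- `useK k rem kont dflt`: `kont (rem - k)` if `k ≤ rem`, otherwise `dflt` -/
noncomputable def useK (k : ℕ) : ℕ → (ℕ → Bool) → Bool → Bool :=
  @Nat.rec (fun _ => ℕ → (ℕ → Bool) → Bool → Bool)
    (fun rem kont _ => kont rem)
    (fun _ ih rem kont dflt => @Nat.rec (fun _ => Bool) dflt (fun r _ => ih r kont dflt) rem) k

/-- insertion in a node -/
noncomputable def sel (d : Ty) : (ℕ → Tr → (Tr → Bool) → Bool) → ℕ → (Tr → Bool) →
    Tr → Tr → Tr → Tr → Tr → Bool :=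
  @Ty.rec (fun _ => (ℕ → Tr → (Tr → Bool) → Bool) → ℕ → (Tr → Bool) →
      Tr → Tr → Tr → Tr → Tr → Bool)
    (fun ih n k o l r t b => ih n o (fun s => k (Tr.node s l r t b)))
    (fun ih n k o l r t b => ih n l (fun s => k (Tr.node o s r t b)))
    (fun ih n k o l r t b => ih n r (fun s => k (Tr.node o l s t b)))
    (fun ih n k o l r t b => ih n t (fun s => k (Tr.node o l r s b)))
    (fun ih n k o l r t b => ih n b (fun s => k (Tr.node o l r t s)))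
    (fun _ _ _ _ _ _ _ _ => false) d

/-- insertion of the empty word -/
noncomputable def insE (tr : Tr) : ℕ → (Tr → Bool) → Bool :=
  @Tr.rec (fun _ => ℕ → (Tr → Bool) → Bool)
    (fun n k => k (Tr.leaf n))
    (fun m n k => @Bool.rec (fun _ => Bool) (k (Tr.leaf m)) (k (Tr.leaf n)) (Nat.ble m n))
    (fun _ _ _ _ _ _ _ _ _ _ _ _ => false) tr

/-- insertion of a nonempty word -/
noncomputable def insC (tr : Tr) : Ty → (ℕ → Tr → (Tr → Bool) → Bool) → ℕ → (Tr → Bool) → Bool :=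
  @Tr.rec (fun _ => Ty → (ℕ → Tr → (Tr → Bool) → Bool) → ℕ → (Tr → Bool) → Bool)
    (fun d ih n k => sel d ih n k Tr.nil Tr.nil Tr.nil Tr.nil Tr.nil)
    (fun _ _ _ _ _ => false)
    (fun o l r t b _ _ _ _ _ d ih n k => sel d ih n k o l r t b) tr

/-- insertion of a word -/
noncomputable def insK (l : List Ty) : ℕ → Tr → (Tr → Bool) → Bool :=
  @List.rec Ty (fun _ => ℕ → Tr → (Tr → Bool) → Bool)
    (fun n tr k => insE tr n k)
    (fun d _ ih n tr k => insC tr d ih n k) l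

/-- the type of the recursive calls -/
abbrev IH : Type := Ty → Ty → ℕ → List Ty → Tr → (Tr → Bool) → Bool

/-- all admissible types of the next cell -/
noncomputable def loop (l : OL) : IH → Ty → ℕ → List Ty → (Tr → Bool) → Tr → Bool :=
  @OL.rec (fun _ => IH → Ty → ℕ → List Ty → (Tr → Bool) → Tr → Bool)
    (fun _ _ _ _ k res => k res)
    (fun d _ ihO ih b rem acc k res => ih b d rem (d :: acc) res (ihO ih b rem acc k))
    (fun d _ ihO ih b rem acc k res => @Nat.rec (fun _ => Bool) (ihO ih b rem acc k res)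
      (fun r _ => ih b d r (d :: acc) res (ihO ih b rem acc k)) rem)
    (fun d _ ihO ih b rem acc k res => @Nat.rec (fun _ => Bool) (ihO ih b rem acc k res)
      (fun r _ => @Nat.rec (fun _ => Bool) (ihO ih b rem acc k res)
        (fun r _ => ih b d r (d :: acc) res (ihO ih b rem acc k)) r) rem)
    (fun d _ ihO ih b rem acc k res => @Nat.rec (fun _ => Bool) (ihO ih b rem acc k res)
      (fun r _ => @Nat.rec (fun _ => Bool) (ihO ih b rem acc k res)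
        (fun r _ => @Nat.rec (fun _ => Bool) (ihO ih b rem acc k res)
          (fun r _ => ih b d r (d :: acc) res (ihO ih b rem acc k)) r) r) rem) l

/-- the end of a row -/
noncomputable def fin (a c : Ty) (rem : ℕ) (acc : List Ty) (res : Tr) (k : Tr → Bool) : Bool :=
  @Option.rec ℕ (fun _ => Bool) (k res)
    (fun e => useK e rem (fun rem' => insK acc rem' res k) (k res)) (endc a c)

/-- all admissible rows below a row -/
noncomputable def goK (up : List Ty) : IH :=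
  @List.rec Ty (fun _ => IH) fin
    (fun b _ ih a c rem acc res k => loop (opts a b c) ih b rem acc k res) up

noncomputable def forceN (n : ℕ) (k : ℕ → Bool) : Bool :=
  @Nat.rec (fun _ => Bool) (k 0) (fun m _ => k (Nat.succ m)) n

noncomputable def foldK (tr : Tr) : ℕ → List Ty → Tr → (Tr → Bool) → Bool :=
  @Tr.rec (fun _ => ℕ → List Ty → Tr → (Tr → Bool) → Bool)
    (fun _ _ res k => k res)
    (fun n inc path res k => forceN (Nat.add n inc) (fun rem => goK path Ty.X Ty.X rem [] res k))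
    (fun _ _ _ _ _ io il ir it ib inc path res k =>
      io inc (Ty.O :: path) res (fun r1 => il inc (Ty.L :: path) r1 (fun r2 => ir inc (Ty.R :: path)
        r2 (fun r3 => it inc (Ty.T :: path) r3 (fun r4 => ib inc (Ty.B :: path) r4 k))))) tr

/-- number of leaves (in CPS style) -/
noncomputable def cntK (tr : Tr) : ℕ → (ℕ → Bool) → Bool :=
  @Tr.rec (fun _ => ℕ → (ℕ → Bool) → Bool)
    (fun n k => k n)
    (fun _ n k => forceN (Nat.succ n) k)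
    (fun _ _ _ _ _ io il ir it ib n k =>
      io n (fun n => il n (fun n => ir n (fun n => it n (fun n => ib n k))))) tr

noncomputable def run (inc : List ℕ) : Tr → (Tr → Bool) → Bool :=
  @List.rec ℕ (fun _ => Tr → (Tr → Bool) → Bool) (fun tr k => k tr)
    (fun i _ ih tr k => foldK tr i [] Tr.nil (fun tr' => ih tr' k)) inc

/-- the lower border: `true` if the row above is not admissible or its cost exceeds `rem` -/
noncomputable def botK (up : List Ty) : Ty → ℕ → Bool :=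
  @List.rec Ty (fun _ => Ty → ℕ → Bool)
    (fun a rem => @Option.rec ℕ (fun _ => Bool) true (fun e => useK e rem (fun _ => false) true)
      (botc a Ty.X))
    (fun b _ ih a rem => @Option.rec ℕ (fun _ => Bool) true
      (fun e => useK e rem (fun rem' => ih b rem') true) (botc a b)) up

/-- the identity; its unfolding keeps the recursion depth of the evaluation small -/
def ret (b : Bool) : Bool := b

/-- `k` if no state of the trie can be completed -/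
noncomputable def noneK (tr : Tr) : List Ty → Bool → Bool :=
  @Tr.rec (fun _ => List Ty → Bool → Bool)
    (fun _ k => k)
    (fun n path k => @Bool.rec (fun _ => Bool) false (ret k) (botK path Ty.X n))
    (fun _ _ _ _ _ io il ir it ib path k =>
      io (Ty.O :: path) (il (Ty.L :: path) (ir (Ty.R :: path) (it (Ty.T :: path)
        (ib (Ty.B :: path) k))))) tr

/-- every word of the first trie is in the second one, with at least the same number -/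
noncomputable def sub (tr : Tr) : Tr → Bool :=
  @Tr.rec (fun _ => Tr → Bool)
    (fun _ => true)
    (fun n D => @Tr.rec (fun _ => Bool) false (fun m => Nat.ble n m)
      (fun _ _ _ _ _ _ _ _ _ _ => false) D)
    (fun _ _ _ _ _ io il ir it ib D => @Tr.rec (fun _ => Bool) false (fun _ => false)
      (fun o l r t b _ _ _ _ _ => and (io o) (and (il l) (and (ir r) (and (it t) (ib b))))) D) tr

/-- the row above the board -/
def X14 : List Ty := [Ty.X, Ty.X, Ty.X, Ty.X, Ty.X, Ty.X, Ty.X, Ty.X, Ty.X, Ty.X, Ty.X, Ty.X,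
  Ty.X, Ty.X]

end Pool.Agent.H17Gun
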