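import Pool.Agent.H17Gun.Data

set_option autoImplicit false

namespace Pool.Agent.H17Gun

theorem runB : run [2, 0, 0, 0] D8 (fun tr => sub tr D12) = true := by
  decide +kernel

theorem runL4 : goK X14 Ty.X Ty.X 1 [] Tr.nil
    (fun tr => run [0, 0, 0] tr (fun tr => sub tr Tr.nil)) = true := by
  decide +kernel

theorem runL3 : goK X14 Ty.X Ty.X 0 [] Tr.nil
    (fun tr => run [0, 0] tr (fun tr => sub tr Tr.nil)) = true := by
  decide +kernel

end Pool.Agent.H17Gun
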