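import Pool.Agent.H17Gun.Data

set_option autoImplicit false

namespace Pool.Agent.H17Gun

theorem runO : run [1, 1, 0, 0] (Tr.node D12O Tr.nil Tr.nil Tr.nil Tr.nil)
    (fun tr => noneK tr [] true) = true := by
  decide +kernel

theorem runR : run [1, 1, 0, 0] (Tr.node Tr.nil Tr.nil D12R Tr.nil Tr.nil)
    (fun tr => noneK tr [] true) = true := by
  decide +kernel

theorem runT : run [1, 1, 0, 0] (Tr.node Tr.nil Tr.nil Tr.nil D12T Tr.nil)
    (fun tr => noneK tr [] true) = true := by
  decide +kernel

end Pool.Agent.H17Gun
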