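import Pool.Agent.H17Gun.Sound

set_option autoImplicit false

namespace Pool.Agent.H17Gun

/-- the second word is an admissible row below the first one (the arguments `a`, `c` are the types
to the left of the words) -/
def Vr : Ty → Ty → List Ty → List Ty → Prop
  | a, c, [], [] => hok a Ty.X = true ∧ vok a c = true ∧ hok c Ty.X = true ∧ c ≠ Ty.X
  | a, c, b :: bs, d :: ds => hok a b = true ∧ vok a c = true ∧ hok c d = true ∧ vok b d = true ∧
      d ≠ Ty.X ∧ Vr b d bs ds
  | _, _, _, _ => False

/-- the cost of the windows between two rows -/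
def Kr : Ty → Ty → List Ty → List Ty → ℕ
  | a, c, [], [] => hp c Ty.X + vt a Ty.X c Ty.X
  | a, c, b :: bs, d :: ds => hp c d + vt a b c d + Kr b d bs ds
  | _, _, _, _ => 0

theorem useK_eq : ∀ (e rem : ℕ) (kont : ℕ → Bool) (dflt : Bool),
    useK e rem kont dflt = if e ≤ rem then kont (rem - e) else dflt := by
  intro e
  induction e with
  | zero => intro rem kont dflt; rfl
  | succ e ih =>
    intro rem kont dflt
    rcases rem with _ | r
    · rfl
    · have h : useK (e + 1) (r + 1) kont dflt = useK e r kont dflt := rfl
      rw [h, ih]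
      by_cases hle : e ≤ r
      · rw [if_pos hle, if_pos (by omega)]
        congr 1; omega
      · rw [if_neg hle, if_neg (by omega)]

theorem forceN_eq (n : ℕ) (k : ℕ → Bool) : forceN n k = k n := by cases n <;> rfl

theorem goK_spec : ∀ (up : List Ty) (a c : Ty) (rem : ℕ) (acc : List Ty) (res : Tr)
    (k : Tr → Bool), goK up a c rem acc res k = true →
    ∃ s, k s = true ∧ Le res s ∧ ∀ l, Vr a c up l → Kr a c up l ≤ rem →
      Has s (l.reverse ++ acc) (rem - Kr a c up l) := by
  intro up
  induction up with
  | nil =>
    intro a c rem acc res k h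
    have h' : fin a c rem acc res k = true := h
    unfold fin at h'
    cases he : endc a c with
    | none =>
      rw [he] at h'
      have h'' : k res = true := h'
      refine ⟨res, h'', Le.refl _, ?_⟩
      intro l hl _
      cases l with
      | nil =>
        obtain ⟨h1, h2, h3, h4⟩ := hl
        rw [endc_eq a c h1 h2 h3 h4] at he
        exact absurd he (by simp)
      | cons d l => exact absurd hl (by simp [Vr])
    | some e =>
      rw [he] at h'
      have h'' : useK e rem (fun rem' => insK acc rem' res k) (k res) = true := h'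
      rw [useK_eq] at h''
      have key : ∀ l, Vr a c [] l → l = [] ∧ Kr a c [] l = e := by
        intro l hl
        cases l with
        | nil =>
          obtain ⟨h1, h2, h3, h4⟩ := hl
          rw [endc_eq a c h1 h2 h3 h4] at he
          exact ⟨rfl, by simpa [Kr] using he⟩
        | cons d l => exact absurd hl (by simp [Vr])
      by_cases hle : e ≤ rem
      · rw [if_pos hle] at h''
        obtain ⟨s, h1, h2, h3⟩ := insK_spec _ _ _ _ h''
        refine ⟨s, h1, h2, ?_⟩
        intro l hl hk
        obtain ⟨rfl, hk'⟩ := key l hl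
        rw [hk']
        exact h3
      · rw [if_neg hle] at h''
        refine ⟨res, h'', Le.refl _, ?_⟩
        intro l hl hk
        obtain ⟨rfl, hk'⟩ := key l hl
        omega
  | cons b up ih =>
    intro a c rem acc res k h
    have h' : loop (opts a b c) (goK up) b rem acc k res = true := h
    obtain ⟨s, h1, h2, h3⟩ := loop_spec
      (fun a c n w s => ∀ l, Vr a c up l → Kr a c up l ≤ n → Has s (l.reverse ++ w) (n - Kr a c up l))
      (fun a c n w s s' hs hq l hl hk => hs _ _ (hq l hl hk)) (goK up) ih b rem acc k _ _ h'
    refine ⟨s, h1, h2, ?_⟩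
    intro l hl hk
    cases l with
    | nil => exact absurd hl (by simp [Vr])
    | cons d l =>
      obtain ⟨e1, e2, e3, e4, e5, e6⟩ := hl
      have hin := opts_complete a b c d e1 e2 e3 e4 e5
      simp only [Kr] at hk ⊢
      have h4 := h3 d _ hin (by omega) l e6 (by omega)
      rw [List.reverse_cons, List.append_assoc, List.singleton_append]
      have e : rem - (hp c d + vt a b c d + Kr b d up l) =
        rem - (hp c d + vt a b c d) - Kr b d up l := by omega
      rw [e]
      exact h4

theorem foldK_spec : ∀ (tr : Tr) (inc : ℕ) (path : List Ty) (res : Tr) (k : Tr → Bool),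
    foldK tr inc path res k = true →
    ∃ s, k s = true ∧ Le res s ∧ ∀ w n, Has tr w n → ∀ l, Vr Ty.X Ty.X (w.reverse ++ path) l →
      Kr Ty.X Ty.X (w.reverse ++ path) l ≤ n + inc →
      Has s l.reverse (n + inc - Kr Ty.X Ty.X (w.reverse ++ path) l) := by
  intro tr
  induction tr with
  | nil =>
    intro inc path res k h
    exact ⟨res, h, Le.refl _, fun w n hw => absurd hw (not_has_nil w n)⟩
  | leaf m =>
    intro inc path res k h
    have h' : forceN (m + inc) (fun rem => goK path Ty.X Ty.X rem [] res k) = true := h
    rw [forceN_eq] at h'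
    obtain ⟨s, h1, h2, h3⟩ := goK_spec _ _ _ _ _ _ _ h'
    refine ⟨s, h1, h2, ?_⟩
    intro w n hw l hl hk
    cases w with
    | nil =>
      have hnm : n ≤ m := hw
      rw [List.reverse_nil, List.nil_append] at hl hk ⊢
      have h4 := h3 l hl (by omega)
      rw [List.append_nil] at h4
      exact has_mono _ _ _ _ (by omega) h4
    | cons d w => cases d <;> simp [Has] at hw
  | node o l r t b io il ir it ib =>
    intro inc path res k h
    have h' : foldK o inc (Ty.O :: path) res (fun r1 => foldK l inc (Ty.L :: path) r1 (fun r2 =>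
      foldK r inc (Ty.R :: path) r2 (fun r3 => foldK t inc (Ty.T :: path) r3 (fun r4 =>
      foldK b inc (Ty.B :: path) r4 k)))) = true := h
    obtain ⟨s1, a1, b1, c1⟩ := io _ _ _ _ h'
    obtain ⟨s2, a2, b2, c2⟩ := il _ _ _ _ a1
    obtain ⟨s3, a3, b3, c3⟩ := ir _ _ _ _ a2
    obtain ⟨s4, a4, b4, c4⟩ := it _ _ _ _ a3
    obtain ⟨s5, a5, b5, c5⟩ := ib _ _ _ _ a4
    refine ⟨s5, a5, b1.trans (b2.trans (b3.trans (b4.trans b5))), ?_⟩
    intro w n hw l' hl hk
    cases w with
    | nil => simp [Has] at hw
    | cons d w =>
      have e : ∀ d : Ty, (d :: w).reverse ++ path = w.reverse ++ (d :: path) := by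
        intro d; simp
      rw [e] at hl hk ⊢
      cases d with
      | O => exact (b2.trans (b3.trans (b4.trans b5))) _ _ (c1 w n hw l' hl hk)
      | L => exact (b3.trans (b4.trans b5)) _ _ (c2 w n hw l' hl hk)
      | R => exact (b4.trans b5) _ _ (c3 w n hw l' hl hk)
      | T => exact b5 _ _ (c4 w n hw l' hl hk)
      | B => exact c5 w n hw l' hl hk
      | X => simp [Has] at hw

/-- the rows `R r, R (r+1), …` are admissible and their costs stay within the budget -/
def okB (R : ℕ → List Ty) : List ℕ → ℕ → ℕ → Prop
  | [], _, _ => True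
  | i :: is, r, n => Vr Ty.X Ty.X (R r) (R (r + 1)) ∧ Kr Ty.X Ty.X (R r) (R (r + 1)) ≤ n + i ∧
      okB R is (r + 1) (n + i - Kr Ty.X Ty.X (R r) (R (r + 1)))

/-- the remaining budget -/
def endB (R : ℕ → List Ty) : List ℕ → ℕ → ℕ → ℕ
  | [], _, n => n
  | i :: is, r, n => endB R is (r + 1) (n + i - Kr Ty.X Ty.X (R r) (R (r + 1)))

theorem run_spec (R : ℕ → List Ty) : ∀ (is : List ℕ) (tr : Tr) (k : Tr → Bool) (r n : ℕ),
    run is tr k = true → Has tr (R r).reverse n → okB R is r n →
    ∃ s, k s = true ∧ Has s (R (r + is.length)).reverse (endB R is r n) := by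
  intro is
  induction is with
  | nil =>
    intro tr k r n h hh _
    exact ⟨tr, h, hh⟩
  | cons i is ih =>
    intro tr k r n h hh hok
    have h' : foldK tr i [] Tr.nil (fun tr' => run is tr' k) = true := h
    obtain ⟨s, h1, _, h3⟩ := foldK_spec _ _ _ _ _ h'
    obtain ⟨o1, o2, o3⟩ := hok
    have h4 := h3 _ _ hh (R (r + 1)) (by simpa using o1) (by simpa using o2)
    rw [List.reverse_reverse, List.append_nil] at h4
    obtain ⟨s', h5, h6⟩ := ih s k (r + 1) _ h1 h4 o3
    refine ⟨s', h5, ?_⟩
    rw [List.length_cons, show r + (is.length + 1) = r + 1 + is.length by omega]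
    exact h6

/-- the lower border of the board -/
def Vb : Ty → List Ty → Prop
  | a, [] => hok a Ty.X = true ∧ vok a Ty.X = true
  | a, b :: bs => hok a b = true ∧ vok a Ty.X = true ∧ vok b Ty.X = true ∧ Vb b bs

/-- the cost of the lower border of the board -/
def Kb : Ty → List Ty → ℕ
  | a, [] => hp Ty.X Ty.X + vt a Ty.X Ty.X Ty.X
  | a, b :: bs => hp Ty.X Ty.X + vt a b Ty.X Ty.X + Kb b bs

theorem botK_spec : ∀ (up : List Ty) (a : Ty) (rem : ℕ), botK up a rem = true → Vb a up →
    ¬ Kb a up ≤ rem := by
  intro up
  induction up with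
  | nil =>
    intro a rem h hv hk
    obtain ⟨h1, h2⟩ := hv
    have he := botc_eq a Ty.X h1 h2 (by decide)
    have h' : @Option.rec ℕ (fun _ => Bool) true (fun e => useK e rem (fun _ => false) true)
      (botc a Ty.X) = true := h
    rw [he] at h'
    have h'' : useK (hp Ty.X Ty.X + vt a Ty.X Ty.X Ty.X) rem (fun _ => false) true = true := h'
    simp only [Kb] at hk
    rw [useK_eq, if_pos hk] at h''
    exact absurd h'' (by decide)
  | cons b up ih =>
    intro a rem h hv hk
    obtain ⟨h1, h2, h3, h4⟩ := hv
    have he := botc_eq a b h1 h2 h3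
    have h' : @Option.rec ℕ (fun _ => Bool) true
      (fun e => useK e rem (fun rem' => botK up b rem') true) (botc a b) = true := h
    rw [he] at h'
    have h'' : useK (hp Ty.X Ty.X + vt a b Ty.X Ty.X) rem (fun rem' => botK up b rem') true = true :=
      h'
    simp only [Kb] at hk
    rw [useK_eq, if_pos (by omega)] at h''
    exact ih b _ h'' h4 (by omega)

theorem noneK_spec : ∀ (tr : Tr) (path : List Ty) (κ : Bool), noneK tr path κ = true →
    κ = true ∧ ∀ w n, Has tr w n → Vb Ty.X (w.reverse ++ path) → ¬ Kb Ty.X (w.reverse ++ path) ≤ n := by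
  intro tr
  induction tr with
  | nil =>
    intro path κ h
    exact ⟨h, fun w n hw => absurd hw (not_has_nil w n)⟩
  | leaf m =>
    intro path κ h
    have h' : @Bool.rec (fun _ => Bool) false (ret κ) (botK path Ty.X m) = true := h
    cases hb : botK path Ty.X m with
    | false => rw [hb] at h'; exact absurd (show false = true from h') (by decide)
    | true =>
      rw [hb] at h'
      refine ⟨h', ?_⟩
      intro w n hw hv hk
      cases w with
      | nil =>
        have hnm : n ≤ m := hw
        rw [List.reverse_nil, List.nil_append] at hv hk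
        exact botK_spec _ _ _ hb hv (by omega)
      | cons d w => cases d <;> simp [Has] at hw
  | node o l r t b io il ir it ib =>
    intro path κ h
    have h' : noneK o (Ty.O :: path) (noneK l (Ty.L :: path) (noneK r (Ty.R :: path)
      (noneK t (Ty.T :: path) (noneK b (Ty.B :: path) κ)))) = true := h
    obtain ⟨a1, c1⟩ := io _ _ h'
    obtain ⟨a2, c2⟩ := il _ _ a1
    obtain ⟨a3, c3⟩ := ir _ _ a2
    obtain ⟨a4, c4⟩ := it _ _ a3
    obtain ⟨a5, c5⟩ := ib _ _ a4
    refine ⟨a5, ?_⟩
    intro w n hw
    cases w with
    | nil => simp [Has] at hw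
    | cons d w =>
      have e : ∀ d : Ty, (d :: w).reverse ++ path = w.reverse ++ (d :: path) := by
        intro d; simp
      rw [e]
      cases d with
      | O => exact c1 w n hw
      | L => exact c2 w n hw
      | R => exact c3 w n hw
      | T => exact c4 w n hw
      | B => exact c5 w n hw
      | X => simp [Has] at hw

theorem sub_spec : ∀ (tr D : Tr), sub tr D = true → Le tr D := by
  intro tr
  induction tr with
  | nil => intro D _; exact nil_le D
  | leaf m =>
    intro D h
    cases D with
    | nil => exact absurd (show false = true from h) (by decide)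
    | leaf m' =>
      have h' : Nat.ble m m' = true := h
      have hle := Nat.le_of_ble_eq_true h'
      intro w n hw
      cases w with
      | nil => simp only [Has] at hw ⊢; omega
      | cons d w => cases d <;> simp [Has] at hw
    | node _ _ _ _ _ => exact absurd (show false = true from h) (by decide)
  | node o l r t b io il ir it ib =>
    intro D h
    cases D with
    | nil => exact absurd (show false = true from h) (by decide)
    | leaf m' => exact absurd (show false = true from h) (by decide)
    | node o' l' r' t' b' =>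
      have h' : and (sub o o') (and (sub l l') (and (sub r r') (and (sub t t') (sub b b')))) = true :=
        h
      simp only [Bool.and_eq_true] at h'
      obtain ⟨h1, h2, h3, h4, h5⟩ := h'
      intro w n hw
      cases w with
      | nil => simp [Has] at hw
      | cons d w =>
        cases d <;> simp only [Has] at hw ⊢
        · exact io _ h1 _ _ hw
        · exact il _ h2 _ _ hw
        · exact ir _ h3 _ _ hw
        · exact it _ h4 _ _ hw
        · exact ib _ h5 _ _ hw

end Pool.Agent.H17Gun
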