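import Mathlib
import Pool.Agent.H17Gun.Sound2
import Pool.Agent.H17Gun.Run1
import Pool.Agent.H17Gun.Run2
import Pool.Agent.H17Gun.Run3
import Pool.Agent.H17Gun.Run4

set_option autoImplicit false

namespace Pool.Agent.H17Gun

open Finset

/-- an admissible array of types: the board consists of the positions `(r, c)` with `1 ≤ r ≤ 16`
and `1 ≤ c ≤ 14` -/
structure Good (t : ℕ → ℕ → Ty) : Prop where
  bd : ∀ r c, r ≤ 17 → c ≤ 15 → (t r c = Ty.X ↔ r = 0 ∨ r = 17 ∨ c = 0 ∨ c = 15)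
  h : ∀ r c, r ≤ 17 → c ≤ 14 → hok (t r c) (t r (c + 1)) = true
  v : ∀ r c, r ≤ 16 → c ≤ 15 → vok (t r c) (t (r + 1) c) = true

/-- horizontal costs of a row -/
def P (t : ℕ → ℕ → Ty) (r : ℕ) : ℕ := ∑ c ∈ range 15, hp (t r c) (t r (c + 1))

/-- the other costs between the rows `r` and `r + 1` -/
def Q (t : ℕ → ℕ → Ty) (r : ℕ) : ℕ :=
  ∑ c ∈ range 15, vt (t r c) (t r (c + 1)) (t (r + 1) c) (t (r + 1) (c + 1))

/-- part of a row -/
def rowF (t : ℕ → ℕ → Ty) (r : ℕ) : ℕ → ℕ → List Ty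
  | _, 0 => []
  | c, n + 1 => t r c :: rowF t r (c + 1) n

/-- the row `r` -/
def RW (t : ℕ → ℕ → Ty) (r : ℕ) : List Ty := rowF t r 1 14

theorem Kr_rowF (t : ℕ → ℕ → Ty) (r : ℕ) : ∀ (n c : ℕ), t r (c + n + 1) = Ty.X →
    t (r + 1) (c + n + 1) = Ty.X →
    Kr (t r c) (t (r + 1) c) (rowF t r (c + 1) n) (rowF t (r + 1) (c + 1) n) =
      ∑ i ∈ range (n + 1), (hp (t (r + 1) (c + i)) (t (r + 1) (c + i + 1)) +
        vt (t r (c + i)) (t r (c + i + 1)) (t (r + 1) (c + i)) (t (r + 1) (c + i + 1))) := by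
  intro n
  induction n with
  | zero =>
    intro c h1 h2
    simp only [rowF, Kr, zero_add, range_one, sum_singleton, add_zero]
    rw [add_zero] at h1 h2
    rw [h1, h2]
  | succ n ih =>
    intro c h1 h2
    rw [sum_range_succ']
    have e := ih (c + 1) (by rw [← h1]; congr 1; omega) (by rw [← h2]; congr 1; omega)
    simp only [rowF, Kr]
    rw [e, add_zero, add_comm]
    congr 1
    apply sum_congr rfl
    intro i _
    rw [show c + 1 + i = c + (i + 1) by omega]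

theorem Kr_eq (t : ℕ → ℕ → Ty) (hg : Good t) (r : ℕ) (hr : r ≤ 16) :
    Kr Ty.X Ty.X (RW t r) (RW t (r + 1)) = P t (r + 1) + Q t r := by
  have e := Kr_rowF t r 14 0 ((hg.bd r 15 (by omega) (by omega)).2 (by omega))
    ((hg.bd (r + 1) 15 (by omega) (by omega)).2 (by omega))
  rw [(hg.bd r 0 (by omega) (by omega)).2 (by omega),
    (hg.bd (r + 1) 0 (by omega) (by omega)).2 (by omega)] at e
  unfold RW P Q
  rw [e, ← sum_add_distrib]
  apply sum_congr rfl
  intro i _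
  rw [zero_add]

theorem Vr_rowF (t : ℕ → ℕ → Ty) (hg : Good t) (r : ℕ) (hr : r ≤ 15) : ∀ (n c : ℕ),
    c + n = 14 → (c = 0 → n ≠ 0) →
    Vr (t r c) (t (r + 1) c) (rowF t r (c + 1) n) (rowF t (r + 1) (c + 1) n) := by
  intro n
  induction n with
  | zero =>
    intro c hc _
    have h1 := hg.h r c (by omega) (by omega)
    have h2 := hg.h (r + 1) c (by omega) (by omega)
    rw [(hg.bd r (c + 1) (by omega) (by omega)).2 (by omega)] at h1
    rw [(hg.bd (r + 1) (c + 1) (by omega) (by omega)).2 (by omega)] at h2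
    refine ⟨h1, hg.v r c (by omega) (by omega), h2, ?_⟩
    intro hx
    have := (hg.bd (r + 1) c (by omega) (by omega)).1 hx
    omega
  | succ n ih =>
    intro c hc _
    refine ⟨hg.h r c (by omega) (by omega), hg.v r c (by omega) (by omega),
      hg.h (r + 1) c (by omega) (by omega), hg.v r (c + 1) (by omega) (by omega), ?_,
      ih (c + 1) (by omega) (by omega)⟩
    intro hx
    have := (hg.bd (r + 1) (c + 1) (by omega) (by omega)).1 hx
    omega

theorem Vr_eq (t : ℕ → ℕ → Ty) (hg : Good t) (r : ℕ) (hr : r ≤ 15) :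
    Vr Ty.X Ty.X (RW t r) (RW t (r + 1)) := by
  have e := Vr_rowF t hg r hr 14 0 rfl (by omega)
  rwa [(hg.bd r 0 (by omega) (by omega)).2 (by omega),
    (hg.bd (r + 1) 0 (by omega) (by omega)).2 (by omega)] at e

theorem RW_zero (t : ℕ → ℕ → Ty) (hg : Good t) : RW t 0 = X14 := by
  have h : ∀ c, c ≤ 15 → t 0 c = Ty.X := fun c hc => (hg.bd 0 c (by omega) hc).2 (by omega)
  simp only [RW, rowF]
  rw [h 1 (by omega), h (1 + 1) (by omega), h (1 + 1 + 1) (by omega), h (1 + 1 + 1 + 1) (by omega),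
    h (1 + 1 + 1 + 1 + 1) (by omega), h (1 + 1 + 1 + 1 + 1 + 1) (by omega),
    h (1 + 1 + 1 + 1 + 1 + 1 + 1) (by omega), h (1 + 1 + 1 + 1 + 1 + 1 + 1 + 1) (by omega),
    h (1 + 1 + 1 + 1 + 1 + 1 + 1 + 1 + 1) (by omega),
    h (1 + 1 + 1 + 1 + 1 + 1 + 1 + 1 + 1 + 1) (by omega),
    h (1 + 1 + 1 + 1 + 1 + 1 + 1 + 1 + 1 + 1 + 1) (by omega),
    h (1 + 1 + 1 + 1 + 1 + 1 + 1 + 1 + 1 + 1 + 1 + 1) (by omega),
    h (1 + 1 + 1 + 1 + 1 + 1 + 1 + 1 + 1 + 1 + 1 + 1 + 1) (by omega),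
    h (1 + 1 + 1 + 1 + 1 + 1 + 1 + 1 + 1 + 1 + 1 + 1 + 1 + 1) (by omega)]
  rfl

theorem Vb_rowF (t : ℕ → ℕ → Ty) (hg : Good t) : ∀ (n c : ℕ), c + n = 14 →
    Vb (t 16 c) (rowF t 16 (c + 1) n) := by
  intro n
  induction n with
  | zero =>
    intro c hc
    have h1 := hg.h 16 c (by omega) (by omega)
    have h2 := hg.v 16 c (by omega) (by omega)
    rw [(hg.bd 16 (c + 1) (by omega) (by omega)).2 (by omega)] at h1
    rw [(hg.bd 17 c (by omega) (by omega)).2 (by omega)] at h2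
    exact ⟨h1, h2⟩
  | succ n ih =>
    intro c hc
    have h1 := hg.h 16 c (by omega) (by omega)
    have h2 := hg.v 16 c (by omega) (by omega)
    have h3 := hg.v 16 (c + 1) (by omega) (by omega)
    rw [(hg.bd 17 c (by omega) (by omega)).2 (by omega)] at h2
    rw [(hg.bd 17 (c + 1) (by omega) (by omega)).2 (by omega)] at h3
    exact ⟨h1, h2, h3, ih (c + 1) (by omega)⟩

theorem Kb_rowF (t : ℕ → ℕ → Ty) (hg : Good t) : ∀ (n c : ℕ), c + n = 14 →
    Kb (t 16 c) (rowF t 16 (c + 1) n) =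
      ∑ i ∈ range (n + 1), (hp (t 17 (c + i)) (t 17 (c + i + 1)) +
        vt (t 16 (c + i)) (t 16 (c + i + 1)) (t 17 (c + i)) (t 17 (c + i + 1))) := by
  intro n
  induction n with
  | zero =>
    intro c hc
    simp only [rowF, Kb, zero_add, range_one, sum_singleton, add_zero]
    rw [(hg.bd 17 c (by omega) (by omega)).2 (by omega),
      (hg.bd 17 (c + 1) (by omega) (by omega)).2 (by omega),
      (hg.bd 16 (c + 1) (by omega) (by omega)).2 (by omega)]
  | succ n ih =>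
    intro c hc
    rw [sum_range_succ']
    have e := ih (c + 1) (by omega)
    simp only [rowF, Kb]
    rw [e, add_zero, add_comm, (hg.bd 17 c (by omega) (by omega)).2 (by omega),
      (hg.bd 17 (c + 1) (by omega) (by omega)).2 (by omega)]
    congr 1
    apply sum_congr rfl
    intro i _
    rw [show c + 1 + i = c + (i + 1) by omega]

theorem Kb_eq (t : ℕ → ℕ → Ty) (hg : Good t) : Kb Ty.X (RW t 16) = P t 17 + Q t 16 := by
  have e := Kb_rowF t hg 14 0 rfl
  rw [(hg.bd 16 0 (by omega) (by omega)).2 (by omega)] at e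
  unfold RW P Q
  rw [e, ← sum_add_distrib]
  apply sum_congr rfl
  intro i _
  rw [zero_add]

theorem Vb_eq (t : ℕ → ℕ → Ty) (hg : Good t) : Vb Ty.X (RW t 16) := by
  have e := Vb_rowF t hg 14 0 rfl
  rwa [(hg.bd 16 0 (by omega) (by omega)).2 (by omega)] at e

/-- the first rows -/
theorem start (t : ℕ → ℕ → Ty) (hg : Good t) (B : ℕ) (is : List ℕ)
    (k : Tr → Bool)
    (h : goK X14 Ty.X Ty.X B [] Tr.nil (fun tr => run is tr k) = true)
    (h0 : P t 1 + Q t 0 ≤ B) (hok : okB (RW t) is 1 (B - (P t 1 + Q t 0))) :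
    ∃ s, k s = true ∧ Has s (RW t (1 + is.length)).reverse
      (endB (RW t) is 1 (B - (P t 1 + Q t 0))) := by
  obtain ⟨s, h1, _, h3⟩ := goK_spec _ _ _ _ _ _ _ h
  have hK := Kr_eq t hg 0 (by omega)
  have hV := Vr_eq t hg 0 (by omega)
  rw [RW_zero t hg] at hK hV
  have h4 := h3 (RW t (0 + 1)) hV (by rw [hK]; exact h0)
  rw [hK, List.append_nil] at h4
  exact run_spec (RW t) is s k 1 _ h1 h4 hok

end Pool.Agent.H17Gun
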