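import Mathlib
import Pool.Agent.H17Gun.Grid

set_option autoImplicit false

namespace Pool.Agent.H17Gun

open Finset

/-- the cost between the rows `r` and `r + 1` -/
def S (t : ℕ → ℕ → Ty) (r : ℕ) : ℕ := P t (r + 1) + Q t r

theorem okB_cons (t : ℕ → ℕ → Ty) (hg : Good t) (i : ℕ) (is : List ℕ) (r n : ℕ) (hr : r ≤ 15)
    (h1 : S t r ≤ n + i) (h2 : okB (RW t) is (r + 1) (n + i - S t r)) :
    okB (RW t) (i :: is) r n := by
  refine ⟨Vr_eq t hg r hr, ?_, ?_⟩
  · rw [Kr_eq t hg r (by omega)]; exact h1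
  · rw [Kr_eq t hg r (by omega)]; exact h2

theorem endB_cons (t : ℕ → ℕ → Ty) (hg : Good t) (i : ℕ) (is : List ℕ) (r n : ℕ) (hr : r ≤ 15) :
    endB (RW t) (i :: is) r n = endB (RW t) is (r + 1) (n + i - S t r) := by
  have h : endB (RW t) (i :: is) r n =
    endB (RW t) is (r + 1) (n + i - Kr Ty.X Ty.X (RW t r) (RW t (r + 1))) := rfl
  rw [h, Kr_eq t hg r (by omega)]
  rfl

theorem four (t : ℕ → ℕ → Ty) (hg : Good t) : 2 ≤ ∑ r ∈ range 4, S t r := by
  by_contra hc
  have hs : S t 0 + S t 1 + S t 2 + S t 3 ≤ 1 := by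
    simp only [sum_range_succ, sum_range_zero] at hc
    omega
  obtain ⟨s, h1, h2⟩ := start t hg 1 [0, 0, 0] _ runL4
    (show S t 0 ≤ 1 by omega) (by
      refine okB_cons t hg _ _ _ _ (by omega) ?_ (okB_cons t hg _ _ _ _ (by omega) ?_
        (okB_cons t hg _ _ _ _ (by omega) ?_ trivial)) <;>
      (change S t _ ≤ _; simp only [show P t 1 + Q t 0 = S t 0 from rfl, Nat.reduceAdd]; omega))
  exact not_has_nil _ _ (sub_spec _ _ h1 _ _ h2)

theorem three (t : ℕ → ℕ → Ty) (hg : Good t) : 1 ≤ ∑ r ∈ range 3, S t r := by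
  by_contra hc
  have hs : S t 0 + S t 1 + S t 2 ≤ 0 := by
    simp only [sum_range_succ, sum_range_zero] at hc
    omega
  obtain ⟨s, h1, h2⟩ := start t hg 0 [0, 0] _ runL3
    (show S t 0 ≤ 0 by omega) (by
      refine okB_cons t hg _ _ _ _ (by omega) ?_ (okB_cons t hg _ _ _ _ (by omega) ?_ trivial) <;>
      (change S t _ ≤ _; simp only [show P t 1 + Q t 0 = S t 0 from rfl, Nat.reduceAdd]; omega))
  exact not_has_nil _ _ (sub_spec _ _ h1 _ _ h2)

theorem eight (t : ℕ → ℕ → Ty) (hg : Good t) (h : ∑ r ∈ range 8, S t r ≤ 4) :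
    Has D8 (RW t 8).reverse (4 - ∑ r ∈ range 8, S t r) := by
  have hs : S t 0 + S t 1 + S t 2 + S t 3 + S t 4 + S t 5 + S t 6 + S t 7 ≤ 4 := by
    simp only [sum_range_succ, sum_range_zero] at h
    omega
  obtain ⟨s, h1, h2⟩ := start t hg 4 [0, 0, 0, 0, 0, 0, 0] _ runA
    (show S t 0 ≤ 4 by omega) (by
      refine okB_cons t hg _ _ _ _ (by omega) ?_ (okB_cons t hg _ _ _ _ (by omega) ?_
        (okB_cons t hg _ _ _ _ (by omega) ?_ (okB_cons t hg _ _ _ _ (by omega) ?_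
        (okB_cons t hg _ _ _ _ (by omega) ?_ (okB_cons t hg _ _ _ _ (by omega) ?_
        (okB_cons t hg _ _ _ _ (by omega) ?_ trivial)))))) <;>
      (change S t _ ≤ _; simp only [show P t 1 + Q t 0 = S t 0 from rfl, Nat.reduceAdd]; omega))
  have h3 := sub_spec _ _ h1 _ _ h2
  rw [endB_cons t hg _ _ _ _ (by omega), endB_cons t hg _ _ _ _ (by omega),
    endB_cons t hg _ _ _ _ (by omega), endB_cons t hg _ _ _ _ (by omega),
    endB_cons t hg _ _ _ _ (by omega), endB_cons t hg _ _ _ _ (by omega),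
    endB_cons t hg _ _ _ _ (by omega)] at h3
  refine has_mono _ _ _ _ ?_ h3
  simp only [endB, sum_range_succ, sum_range_zero, show P t 1 + Q t 0 = S t 0 from rfl,
    Nat.reduceAdd]
  omega

theorem twelve (t : ℕ → ℕ → Ty) (hg : Good t) (h : ∑ r ∈ range 8, S t r ≤ 4)
    (h' : ∑ r ∈ range 12, S t r ≤ 6) :
    Has D12 (RW t 12).reverse (6 - ∑ r ∈ range 12, S t r) := by
  have h0 := eight t hg h
  have e8 : ∑ r ∈ range 12, S t r = ∑ r ∈ range 8, S t r + S t 8 + S t 9 + S t 10 + S t 11 := by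
    rw [sum_range_succ, sum_range_succ, sum_range_succ, sum_range_succ]
  generalize ∑ r ∈ range 8, S t r = A at h h' h0 e8
  obtain ⟨s, h1, h2⟩ := run_spec (RW t) [2, 0, 0, 0] D8 _ 8 (4 - A) runB h0
    (by
      refine okB_cons t hg _ _ _ _ (by omega) ?_ (okB_cons t hg _ _ _ _ (by omega) ?_
        (okB_cons t hg _ _ _ _ (by omega) ?_ (okB_cons t hg _ _ _ _ (by omega) ?_ trivial))) <;>
      (change S t _ ≤ _; try simp only [Nat.reduceAdd]
       omega))
  have h3 := sub_spec _ _ h1 _ _ h2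
  rw [endB_cons t hg _ _ _ _ (by omega), endB_cons t hg _ _ _ _ (by omega),
    endB_cons t hg _ _ _ _ (by omega), endB_cons t hg _ _ _ _ (by omega)] at h3
  refine has_mono _ _ _ _ ?_ h3
  simp only [endB, Nat.reduceAdd]
  omega

theorem last (t : ℕ → ℕ → Ty) (hg : Good t) (A : ℕ) (h12 : A ≤ 6)
    (h13 : A + S t 12 ≤ 7) (h17 : A + S t 12 + S t 13 + S t 14 + S t 15 + S t 16 ≤ 8)
    (D : Tr) (hr : run [1, 1, 0, 0] D (fun tr => noneK tr [] true) = true)
    (h : Has D (RW t 12).reverse (6 - A)) : False := by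
  obtain ⟨s, h1, h2⟩ := run_spec (RW t) [1, 1, 0, 0] D _ 12 (6 - A) hr h
    (by
      refine okB_cons t hg _ _ _ _ (by omega) ?_ (okB_cons t hg _ _ _ _ (by omega) ?_
        (okB_cons t hg _ _ _ _ (by omega) ?_ (okB_cons t hg _ _ _ _ (by omega) ?_ trivial))) <;>
      (change S t _ ≤ _; try simp only [Nat.reduceAdd]
       omega))
  rw [endB_cons t hg _ _ _ _ (by omega), endB_cons t hg _ _ _ _ (by omega),
    endB_cons t hg _ _ _ _ (by omega), endB_cons t hg _ _ _ _ (by omega)] at h2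
  simp only [endB, Nat.reduceAdd] at h2
  obtain ⟨_, h3⟩ := noneK_spec _ _ _ h1
  have h4 := h3 _ _ h2
  rw [List.reverse_reverse, List.append_nil] at h4
  have h5 := h4 (Vb_eq t hg)
  apply h5
  have h6 : Kb Ty.X (RW t 16) = S t 16 := Kb_eq t hg
  have h7 : Kb Ty.X (RW t (12 + [1, 1, 0, 0].length)) = S t 16 := h6
  rw [h7]
  omega

theorem main1 (t : ℕ → ℕ → Ty) (hg : Good t) (h8 : ∑ r ∈ range 8, S t r ≤ 4)
    (h12 : ∑ r ∈ range 12, S t r ≤ 6) (h13 : ∑ r ∈ range 13, S t r ≤ 7)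
    (h17 : ∑ r ∈ range 17, S t r ≤ 8) : False := by
  have h := twelve t hg h8 h12
  rw [sum_range_succ] at h13
  rw [sum_range_succ, sum_range_succ, sum_range_succ, sum_range_succ, sum_range_succ] at h17
  have key : ∀ (D : Tr) (_ : run [1, 1, 0, 0] D (fun tr => noneK tr [] true) = true)
    (_ : Has D (RW t 12).reverse (6 - ∑ r ∈ range 12, S t r)), False := fun D hr hD =>
    last t hg _ h12 h13 h17 D hr hD
  generalize (6 - ∑ r ∈ range 12, S t r) = m at h key
  have hD : D12 = Tr.node D12O Tr.nil D12R D12T D12B := rfl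
  rw [hD] at h
  generalize (RW t 12).reverse = w at h key
  cases w with
  | nil => simp [Has] at h
  | cons d w =>
    cases d with
    | O => exact key _ runO h
    | L => exact absurd (show Has Tr.nil w m from h) (not_has_nil _ _)
    | R => exact key _ runR h
    | T => exact key _ runT h
    | B => exact key _ runB' h
    | X => simp [Has] at h

/-- exchange of the upper and the lower half -/
def fl : Ty → Ty
  | Ty.T => Ty.B
  | Ty.B => Ty.T
  | x => x

theorem fl_X (x : Ty) : fl x = Ty.X ↔ x = Ty.X := by revert x; decide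

theorem hok_fl : ∀ a b : Ty, hok (fl a) (fl b) = hok a b := by decide

theorem vok_fl : ∀ a b : Ty, vok (fl b) (fl a) = vok a b := by decide

theorem hp_fl : ∀ a b : Ty, hp (fl a) (fl b) = hp a b := by decide

theorem vt_fl : ∀ a b c d : Ty, vt (fl c) (fl d) (fl a) (fl b) = vt a b c d := by decide +kernel

/-- the board upside down -/
def rf (t : ℕ → ℕ → Ty) (r c : ℕ) : Ty := fl (t (17 - r) c)

theorem good_rf (t : ℕ → ℕ → Ty) (hg : Good t) : Good (rf t) := by
  refine ⟨?_, ?_, ?_⟩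
  · intro r c hr hc
    unfold rf
    rw [fl_X, hg.bd _ _ (by omega) hc]
    omega
  · intro r c hr hc
    unfold rf
    rw [hok_fl]
    exact hg.h _ _ (by omega) hc
  · intro r c hr hc
    unfold rf
    rw [show 17 - r = 17 - (r + 1) + 1 by omega, vok_fl]
    exact hg.v _ _ (by omega) hc

theorem P_rf (t : ℕ → ℕ → Ty) (r : ℕ) : P (rf t) r = P t (17 - r) := by
  unfold P rf
  apply sum_congr rfl
  intro c _
  rw [hp_fl]

theorem Q_rf (t : ℕ → ℕ → Ty) (r : ℕ) (hr : r ≤ 16) : Q (rf t) r = Q t (16 - r) := by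
  unfold Q rf
  apply sum_congr rfl
  intro c _
  rw [show 17 - r = 16 - r + 1 by omega, show 17 - (r + 1) = 16 - r by omega, vt_fl]

theorem P_zero (t : ℕ → ℕ → Ty) (hg : Good t) (r : ℕ) (hr : r = 0 ∨ r = 17) : P t r = 0 := by
  unfold P
  apply sum_eq_zero
  intro c hc
  rw [mem_range] at hc
  rw [(hg.bd r c (by omega) (by omega)).2 (by omega),
    (hg.bd r (c + 1) (by omega) (by omega)).2 (by omega)]
  rfl

theorem arith (p q p' q' : ℕ → ℕ) (hp : ∀ r, p' r = p (17 - r))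
    (hq : ∀ r, r ≤ 16 → q' r = q (16 - r)) (h0 : p 0 = 0) (h17 : p 17 = 0) :
    (∑ r ∈ range 17, (p' (r + 1) + q' r) = ∑ r ∈ range 17, (p (r + 1) + q r)) ∧
    (∑ r ∈ range 8, (p' (r + 1) + q' r) + ∑ r ∈ range 8, (p (r + 1) + q r) ≤
      ∑ r ∈ range 17, (p (r + 1) + q r)) ∧
    (∑ r ∈ range 4, (p' (r + 1) + q' r) + ∑ r ∈ range 12, (p (r + 1) + q r) ≤
      ∑ r ∈ range 17, (p (r + 1) + q r)) ∧
    (∑ r ∈ range 3, (p' (r + 1) + q' r) + ∑ r ∈ range 13, (p (r + 1) + q r) ≤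
      ∑ r ∈ range 17, (p (r + 1) + q r)) := by
  simp only [sum_range_succ, sum_range_zero, hp]
  rw [hq 0 (by omega), hq 1 (by omega), hq 2 (by omega), hq 3 (by omega),
    hq 4 (by omega), hq 5 (by omega), hq 6 (by omega), hq 7 (by omega),
    hq 8 (by omega), hq 9 (by omega), hq 10 (by omega), hq 11 (by omega),
    hq 12 (by omega), hq 13 (by omega), hq 14 (by omega), hq 15 (by omega),
    hq 16 (by omega)]
  simp only [Nat.reduceSub, Nat.reduceAdd]
  refine ⟨?_, ?_, ?_, ?_⟩ <;> omega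

/-- the cost is at least `9` -/
theorem main (t : ℕ → ℕ → Ty) (hg : Good t) : 9 ≤ ∑ r ∈ range 17, S t r := by
  have step : ∀ (t : ℕ → ℕ → Ty), Good t → ∑ r ∈ range 17, S t r ≤ 8 →
      ∑ r ∈ range 8, S t r ≤ 4 → False := by
    intro t hg hc h8
    have hg' := good_rf t hg
    have h4 := four _ hg'
    have h3 := three _ hg'
    obtain ⟨_, _, a3, a4⟩ := arith (P t) (Q t) (P (rf t)) (Q (rf t)) (P_rf t) (Q_rf t)
      (P_zero t hg 0 (by omega)) (P_zero t hg 17 (by omega))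
    unfold S at h4 h3 hc
    refine main1 t hg h8 ?_ ?_ hc
    · unfold S
      omega
    · unfold S
      omega
  by_contra hc
  have hc' : ∑ r ∈ range 17, S t r ≤ 8 := by omega
  have hg' := good_rf t hg
  by_cases h8 : ∑ r ∈ range 8, S t r ≤ 4
  · exact step t hg hc' h8
  · obtain ⟨a1, a2, _, _⟩ := arith (P t) (Q t) (P (rf t)) (Q (rf t)) (P_rf t) (Q_rf t)
      (P_zero t hg 0 (by omega)) (P_zero t hg 17 (by omega))
    unfold S at hc' h8
    refine step (rf t) hg' ?_ ?_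
    · unfold S
      omega
    · unfold S
      omega

end Pool.Agent.H17Gun
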