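import Mathlib
import Pool.Agent.H17Gun.Main

set_option autoImplicit false

namespace Pool.Agent.H17Gun

open Finset

/-- vertical flow -/
def fh (a b : Ty) : ℤ :=
  match a, b with
  | Ty.O, Ty.O => 0 | Ty.O, Ty.L => 2 | Ty.O, Ty.R => 0 | Ty.O, Ty.T => 2 | Ty.O, Ty.B => 2
  | Ty.O, Ty.X => 1
  | Ty.L, Ty.O => 0 | Ty.L, Ty.L => 0 | Ty.L, Ty.R => 2 | Ty.L, Ty.T => 0 | Ty.L, Ty.B => 0
  | Ty.L, Ty.X => 0
  | Ty.R, Ty.O => -4 | Ty.R, Ty.L => -1 | Ty.R, Ty.R => 0 | Ty.R, Ty.T => 0 | Ty.R, Ty.B => -1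
  | Ty.R, Ty.X => -1
  | Ty.T, Ty.O => -4 | Ty.T, Ty.L => 0 | Ty.T, Ty.R => 0 | Ty.T, Ty.T => 1 | Ty.T, Ty.B => 0
  | Ty.T, Ty.X => -1
  | Ty.B, Ty.O => -2 | Ty.B, Ty.L => 1 | Ty.B, Ty.R => 0 | Ty.B, Ty.T => 2 | Ty.B, Ty.B => 1
  | Ty.B, Ty.X => 1
  | Ty.X, Ty.O => -3 | Ty.X, Ty.L => 1 | Ty.X, Ty.R => 0 | Ty.X, Ty.T => 1 | Ty.X, Ty.B => 1
  | Ty.X, Ty.X => 0

/-- horizontal flow -/
def fv (a c : Ty) : ℤ :=
  match a, c with
  | Ty.O, Ty.O => 0 | Ty.O, Ty.L => -2 | Ty.O, Ty.R => -2 | Ty.O, Ty.T => -2 | Ty.O, Ty.B => 0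
  | Ty.O, Ty.X => -2
  | Ty.L, Ty.O => 0 | Ty.L, Ty.L => 1 | Ty.L, Ty.R => 0 | Ty.L, Ty.T => 0 | Ty.L, Ty.B => 0
  | Ty.L, Ty.X => 0
  | Ty.R, Ty.O => 2 | Ty.R, Ty.L => 2 | Ty.R, Ty.R => 1 | Ty.R, Ty.T => 1 | Ty.R, Ty.B => 0
  | Ty.R, Ty.X => 2
  | Ty.T, Ty.O => 0 | Ty.T, Ty.L => 0 | Ty.T, Ty.R => 0 | Ty.T, Ty.T => 0 | Ty.T, Ty.B => 2
  | Ty.T, Ty.X => 0
  | Ty.B, Ty.O => 0 | Ty.B, Ty.L => 0 | Ty.B, Ty.R => -1 | Ty.B, Ty.T => -1 | Ty.B, Ty.B => 0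
  | Ty.B, Ty.X => 0
  | Ty.X, _ => 0

/-- the weight of a cell -/
def wt (d : Ty) : ℤ := (if d = Ty.X then 0 else 2) - (if d = Ty.O then 6 else 0)

/-- possible positions of the cells outside the board -/
def xp (a b c d : Ty) (k : ℤ) : Prop :=
  ((a ≠ Ty.X ∧ b ≠ Ty.X ∧ c ≠ Ty.X ∧ d ≠ Ty.X) ∧ k = 0) ∨
  ((a = Ty.X ∧ b = Ty.X ∧ c ≠ Ty.X ∧ d ≠ Ty.X) ∧ k = 0) ∨
  ((a ≠ Ty.X ∧ b ≠ Ty.X ∧ c = Ty.X ∧ d = Ty.X) ∧ k = 0) ∨
  ((a = Ty.X ∧ b ≠ Ty.X ∧ c = Ty.X ∧ d ≠ Ty.X) ∧ k = 0) ∨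
  ((a ≠ Ty.X ∧ b = Ty.X ∧ c ≠ Ty.X ∧ d = Ty.X) ∧ k = 0) ∨
  ((a ≠ Ty.X ∧ b = Ty.X ∧ c = Ty.X ∧ d = Ty.X) ∧ k = 1) ∨
  ((a = Ty.X ∧ b ≠ Ty.X ∧ c = Ty.X ∧ d = Ty.X) ∧ k = 1) ∨
  ((a = Ty.X ∧ b = Ty.X ∧ c ≠ Ty.X ∧ d = Ty.X) ∧ k = 1) ∨
  ((a = Ty.X ∧ b = Ty.X ∧ c = Ty.X ∧ d ≠ Ty.X) ∧ k = 1)

instance (a b c d : Ty) (k : ℤ) : Decidable (xp a b c d k) := by unfold xp; infer_instance

theorem window (a b c d : Ty) (k : ℤ) (h : xp a b c d k) (h1 : hok a b = true)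
    (h2 : hok c d = true) (h3 : vok a c = true) (h4 : vok b d = true) :
    ((hp c d + vt a b c d : ℕ) : ℤ) =
      wt d + (fh a b - fh c d) + (fv a c - fv b d) + k := by
  have hk : k = 0 ∨ k = 1 := by
    unfold xp at h
    omega
  rcases hk with rfl | rfl
  · revert a b c d
    decide +kernel
  · revert a b c d
    decide +kernel

theorem xp_of (a b c d : Ty) (i j : ℕ) (hi : i ≤ 16) (hj : j ≤ 14) (ha : a = Ty.X ↔ i = 0 ∨ j = 0)
    (hb : b = Ty.X ↔ i = 0 ∨ j = 14) (hc : c = Ty.X ↔ i = 16 ∨ j = 0)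
    (hd : d = Ty.X ↔ i = 16 ∨ j = 14) :
    xp a b c d (if (i = 0 ∨ i = 16) ∧ (j = 0 ∨ j = 14) then 1 else 0) := by
  by_cases h1 : i = 0
  · subst h1
    by_cases h2 : j = 0
    · subst h2; simp [xp, ha, hb, hc, hd]
    · by_cases h3 : j = 14
      · subst h3; simp [xp, ha, hb, hc, hd]
      · simp [xp, ha, hb, hc, hd, h2, h3]
  · by_cases h4 : i = 16
    · subst h4
      by_cases h2 : j = 0
      · subst h2; simp [xp, ha, hb, hc, hd]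
      · by_cases h3 : j = 14
        · subst h3; simp [xp, ha, hb, hc, hd]
        · simp [xp, ha, hb, hc, hd, h2, h3]
    · by_cases h2 : j = 0
      · subst h2; simp [xp, ha, hb, hc, hd, h1, h4]
      · by_cases h3 : j = 14
        · subst h3; simp [xp, ha, hb, hc, hd, h1, h4]
        · simp [xp, ha, hb, hc, hd, h1, h4, h2, h3]

/-- number of holes -/
def N0 (t : ℕ → ℕ → Ty) : ℤ :=
  ∑ r ∈ range 17, ∑ c ∈ range 15, (if t (r + 1) (c + 1) = Ty.O then 1 else 0)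

theorem total (t : ℕ → ℕ → Ty) (hg : Good t) :
    ((∑ r ∈ range 17, S t r : ℕ) : ℤ) = 452 - 6 * N0 t := by
  have h1 : ((∑ r ∈ range 17, S t r : ℕ) : ℤ) = ∑ r ∈ range 17, ∑ c ∈ range 15,
      (wt (t (r + 1) (c + 1)) + (fh (t r c) (t r (c + 1)) - fh (t (r + 1) c) (t (r + 1) (c + 1))) +
        (fv (t r c) (t (r + 1) c) - fv (t r (c + 1)) (t (r + 1) (c + 1))) +
        (if (r = 0 ∨ r = 16) ∧ (c = 0 ∨ c = 14) then 1 else 0)) := by
    rw [Nat.cast_sum]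
    apply sum_congr rfl
    intro r hr
    rw [mem_range] at hr
    unfold S P Q
    rw [← sum_add_distrib, Nat.cast_sum]
    apply sum_congr rfl
    intro c hc
    rw [mem_range] at hc
    apply window
    · exact xp_of _ _ _ _ r c (by omega) (by omega)
        ((hg.bd r c (by omega) (by omega)).trans (by omega))
        ((hg.bd r (c + 1) (by omega) (by omega)).trans (by omega))
        ((hg.bd (r + 1) c (by omega) (by omega)).trans (by omega))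
        ((hg.bd (r + 1) (c + 1) (by omega) (by omega)).trans (by omega))
    · exact hg.h _ _ (by omega) (by omega)
    · exact hg.h _ _ (by omega) (by omega)
    · exact hg.v _ _ (by omega) (by omega)
    · exact hg.v _ _ (by omega) (by omega)
  rw [h1]
  simp only [sum_add_distrib]
  have h2 : ∑ r ∈ range 17, ∑ c ∈ range 15,
      (fh (t r c) (t r (c + 1)) - fh (t (r + 1) c) (t (r + 1) (c + 1))) = 0 := by
    rw [sum_comm]
    apply sum_eq_zero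
    intro c hc
    rw [mem_range] at hc
    rw [sum_range_sub' (fun r => fh (t r c) (t r (c + 1)))]
    rw [(hg.bd 0 c (by omega) (by omega)).2 (by omega),
      (hg.bd 0 (c + 1) (by omega) (by omega)).2 (by omega),
      (hg.bd 17 c (by omega) (by omega)).2 (by omega),
      (hg.bd 17 (c + 1) (by omega) (by omega)).2 (by omega)]
    rfl
  have h3 : ∑ r ∈ range 17, ∑ c ∈ range 15,
      (fv (t r c) (t (r + 1) c) - fv (t r (c + 1)) (t (r + 1) (c + 1))) = 0 := by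
    apply sum_eq_zero
    intro r hr
    rw [mem_range] at hr
    rw [sum_range_sub' (fun c => fv (t r c) (t (r + 1) c))]
    rw [(hg.bd r 0 (by omega) (by omega)).2 (by omega),
      (hg.bd (r + 1) 0 (by omega) (by omega)).2 (by omega),
      (hg.bd r 15 (by omega) (by omega)).2 (by omega),
      (hg.bd (r + 1) 15 (by omega) (by omega)).2 (by omega)]
    rfl
  have h4 : ∑ r ∈ range 17, ∑ c ∈ range 15,
      (if (r = 0 ∨ r = 16) ∧ (c = 0 ∨ c = 14) then (1 : ℤ) else 0) = 4 := by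
    decide +kernel
  have h5 : ∑ r ∈ range 17, ∑ c ∈ range 15, wt (t (r + 1) (c + 1)) = 448 - 6 * N0 t := by
    have h6 : ∑ r ∈ range 17, ∑ c ∈ range 15, wt (t (r + 1) (c + 1)) =
        ∑ r ∈ range 17, ∑ c ∈ range 15, ((if r = 16 ∨ c = 14 then (0 : ℤ) else 2) -
          6 * (if t (r + 1) (c + 1) = Ty.O then 1 else 0)) := by
      apply sum_congr rfl
      intro r hr
      apply sum_congr rfl
      intro c hc
      rw [mem_range] at hr hc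
      unfold wt
      have e4 := hg.bd (r + 1) (c + 1) (by omega) (by omega)
      have e5 : (if t (r + 1) (c + 1) = Ty.X then (0 : ℤ) else 2) =
          (if r = 16 ∨ c = 14 then (0 : ℤ) else 2) := by
        by_cases hx : t (r + 1) (c + 1) = Ty.X
        · rw [if_pos hx, if_pos (by rw [e4] at hx; omega)]
        · rw [if_neg hx, if_neg (by rw [e4] at hx; omega)]
      rw [e5]
      split_ifs <;> simp
    rw [h6]
    simp only [sum_sub_distrib, ← mul_sum]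
    have h7 : ∑ r ∈ range 17, ∑ c ∈ range 15, (if r = 16 ∨ c = 14 then (0 : ℤ) else 2) = 448 := by
      decide +kernel
    rw [h7]
    rfl
  rw [h2, h3, h4, h5]
  ring

theorem N0_le (t : ℕ → ℕ → Ty) (hg : Good t) : N0 t ≤ 73 := by
  have h1 := main t hg
  have h2 := total t hg
  omega

end Pool.Agent.H17Gun
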