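import Pool.Agent.H17Gun.Def

set_option autoImplicit false

namespace Pool.Agent.H17Gun

instance : Fintype Ty :=
  ⟨⟨Multiset.ofList [Ty.O, Ty.L, Ty.R, Ty.T, Ty.B, Ty.X], by decide⟩, by
    intro x; cases x <;> decide⟩

/-- the word `w` is in the trie with a number at least `n` -/
def Has : Tr → List Ty → ℕ → Prop
  | Tr.leaf m, [], n => n ≤ m
  | Tr.node o _ _ _ _, Ty.O :: w, n => Has o w n
  | Tr.node _ l _ _ _, Ty.L :: w, n => Has l w n
  | Tr.node _ _ r _ _, Ty.R :: w, n => Has r w n
  | Tr.node _ _ _ t _, Ty.T :: w, n => Has t w n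
  | Tr.node _ _ _ _ b, Ty.B :: w, n => Has b w n
  | _, _, _ => False

/-- inclusion of tries -/
def Le (s t : Tr) : Prop := ∀ w n, Has s w n → Has t w n

theorem Le.refl (s : Tr) : Le s s := fun _ _ h => h
theorem Le.trans {s t u : Tr} (h1 : Le s t) (h2 : Le t u) : Le s u := fun w n h => h2 w n (h1 w n h)

theorem not_has_nil (w : List Ty) (n : ℕ) : ¬ Has Tr.nil w n := by
  cases w with
  | nil => simp [Has]
  | cons d w => cases d <;> simp [Has]

theorem nil_le (s : Tr) : Le Tr.nil s := fun w n h => absurd h (not_has_nil w n)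

theorem has_mono : ∀ (s : Tr) (w : List Ty) (m n : ℕ), m ≤ n → Has s w n → Has s w m := by
  intro s
  induction s with
  | nil => intro w m n _ h; exact absurd h (not_has_nil w n)
  | leaf k =>
    intro w m n hmn h
    cases w with
    | nil => simp only [Has] at h ⊢; omega
    | cons d w => cases d <;> simp [Has] at h
  | node o l r t b io il ir it ib =>
    intro w m n hmn h
    cases w with
    | nil => simp [Has] at h
    | cons d w =>
      cases d <;> simp only [Has] at h ⊢
      · exact io w m n hmn h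
      · exact il w m n hmn h
      · exact ir w m n hmn h
      · exact it w m n hmn h
      · exact ib w m n hmn h

theorem insK_spec : ∀ (w : List Ty) (n : ℕ) (tr : Tr) (k : Tr → Bool), insK w n tr k = true →
    ∃ s, k s = true ∧ Le tr s ∧ Has s w n := by
  intro w
  induction w with
  | nil =>
    intro n tr k h
    cases tr with
    | nil =>
      have h' : k (Tr.leaf n) = true := h
      exact ⟨_, h', nil_le _, le_refl n⟩
    | leaf m =>
      have h' : @Bool.rec (fun _ => Bool) (k (Tr.leaf m)) (k (Tr.leaf n)) (Nat.ble m n) = true := h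
      cases hb : Nat.ble m n with
      | false =>
        rw [hb] at h'
        have hmn : ¬ m ≤ n := by
          intro hle
          rw [Nat.ble_eq_true_of_le hle] at hb
          exact absurd hb (by decide)
        refine ⟨_, h', Le.refl _, ?_⟩
        show n ≤ m
        omega
      | true =>
        rw [hb] at h'
        have hmn : m ≤ n := Nat.le_of_ble_eq_true hb
        refine ⟨_, h', ?_, le_refl n⟩
        intro w' n' hw
        cases w' with
        | nil => simp only [Has] at hw ⊢; omega
        | cons d w' => cases d <;> simp [Has] at hw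
    | node o l r t b => exact absurd (show false = true from h) (by decide)
  | cons d w ih =>
    intro n tr k h
    cases tr with
    | nil =>
      have h' : sel d (insK w) n k Tr.nil Tr.nil Tr.nil Tr.nil Tr.nil = true := h
      cases d with
      | O =>
        obtain ⟨s, h1, h2, h3⟩ := ih n Tr.nil _ h'
        exact ⟨_, h1, nil_le _, h3⟩
      | L =>
        obtain ⟨s, h1, h2, h3⟩ := ih n Tr.nil _ h'
        exact ⟨_, h1, nil_le _, h3⟩
      | R =>
        obtain ⟨s, h1, h2, h3⟩ := ih n Tr.nil _ h'
        exact ⟨_, h1, nil_le _, h3⟩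
      | T =>
        obtain ⟨s, h1, h2, h3⟩ := ih n Tr.nil _ h'
        exact ⟨_, h1, nil_le _, h3⟩
      | B =>
        obtain ⟨s, h1, h2, h3⟩ := ih n Tr.nil _ h'
        exact ⟨_, h1, nil_le _, h3⟩
      | X => exact absurd h' (by simp [sel])
    | leaf m => exact absurd (show false = true from h) (by decide)
    | node o l r t b =>
      have h' : sel d (insK w) n k o l r t b = true := h
      cases d with
      | O =>
        obtain ⟨s, h1, h2, h3⟩ := ih n o _ h'
        refine ⟨_, h1, ?_, h3⟩
        intro w' n' hw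
        cases w' with
        | nil => simp [Has] at hw
        | cons e w' => cases e <;> simp only [Has] at hw ⊢ <;> first | exact h2 _ _ hw | exact hw
      | L =>
        obtain ⟨s, h1, h2, h3⟩ := ih n l _ h'
        refine ⟨_, h1, ?_, h3⟩
        intro w' n' hw
        cases w' with
        | nil => simp [Has] at hw
        | cons e w' => cases e <;> simp only [Has] at hw ⊢ <;> first | exact h2 _ _ hw | exact hw
      | R =>
        obtain ⟨s, h1, h2, h3⟩ := ih n r _ h'
        refine ⟨_, h1, ?_, h3⟩
        intro w' n' hw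
        cases w' with
        | nil => simp [Has] at hw
        | cons e w' => cases e <;> simp only [Has] at hw ⊢ <;> first | exact h2 _ _ hw | exact hw
      | T =>
        obtain ⟨s, h1, h2, h3⟩ := ih n t _ h'
        refine ⟨_, h1, ?_, h3⟩
        intro w' n' hw
        cases w' with
        | nil => simp [Has] at hw
        | cons e w' => cases e <;> simp only [Has] at hw ⊢ <;> first | exact h2 _ _ hw | exact hw
      | B =>
        obtain ⟨s, h1, h2, h3⟩ := ih n b _ h'
        refine ⟨_, h1, ?_, h3⟩
        intro w' n' hw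
        cases w' with
        | nil => simp [Has] at hw
        | cons e w' => cases e <;> simp only [Has] at hw ⊢ <;> first | exact h2 _ _ hw | exact hw
      | X => exact absurd h' (by simp [sel])

/-- membership in a list with costs -/
def inOL : OL → Ty → ℕ → Bool
  | OL.nil, _, _ => false
  | OL.c0 t r, d, k => (decide (t = d) && decide (k = 0)) || inOL r d k
  | OL.c1 t r, d, k => (decide (t = d) && decide (k = 1)) || inOL r d k
  | OL.c2 t r, d, k => (decide (t = d) && decide (k = 2)) || inOL r d k
  | OL.c3 t r, d, k => (decide (t = d) && decide (k = 3)) || inOL r d k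

theorem loop_spec (Q : Ty → Ty → ℕ → List Ty → Tr → Prop)
    (hQ : ∀ a c n w s s', Le s s' → Q a c n w s → Q a c n w s')
    (ih : IH) (hih : ∀ a c rem acc res k, ih a c rem acc res k = true →
      ∃ s, k s = true ∧ Le res s ∧ Q a c rem acc s)
    (b : Ty) (rem : ℕ) (acc : List Ty) (k : Tr → Bool) :
    ∀ (l : OL) (res : Tr), loop l ih b rem acc k res = true →
      ∃ s, k s = true ∧ Le res s ∧
        ∀ d κ, inOL l d κ = true → κ ≤ rem → Q b d (rem - κ) (d :: acc) s := by
  intro l
  induction l with
  | nil =>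
    intro res h
    exact ⟨res, h, Le.refl _, fun d κ hd => by simp [inOL] at hd⟩
  | c0 e l ihl =>
    intro res h
    have h' : ih b e rem (e :: acc) res (loop l ih b rem acc k) = true := h
    obtain ⟨s1, h1, h2, h3⟩ := hih _ _ _ _ _ _ h'
    obtain ⟨s2, h4, h5, h6⟩ := ihl s1 h1
    refine ⟨s2, h4, h2.trans h5, ?_⟩
    intro d κ hd hκ
    simp only [inOL, Bool.or_eq_true, Bool.and_eq_true, decide_eq_true_eq] at hd
    rcases hd with ⟨rfl, rfl⟩ | hd
    · exact hQ _ _ _ _ _ _ h5 h3
    · exact h6 d κ hd hκ
  | c1 e l ihl =>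
    intro res h
    rcases rem with _ | r
    · have h' : loop l ih b 0 acc k res = true := h
      obtain ⟨s2, h4, h5, h6⟩ := ihl res h'
      refine ⟨s2, h4, h5, ?_⟩
      intro d κ hd hκ
      simp only [inOL, Bool.or_eq_true, Bool.and_eq_true, decide_eq_true_eq] at hd
      rcases hd with ⟨rfl, rfl⟩ | hd
      · omega
      · exact h6 d κ hd hκ
    · have h' : ih b e r (e :: acc) res (loop l ih b (r + 1) acc k) = true := h
      obtain ⟨s1, h1, h2, h3⟩ := hih _ _ _ _ _ _ h'
      obtain ⟨s2, h4, h5, h6⟩ := ihl s1 h1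
      refine ⟨s2, h4, h2.trans h5, ?_⟩
      intro d κ hd hκ
      simp only [inOL, Bool.or_eq_true, Bool.and_eq_true, decide_eq_true_eq] at hd
      rcases hd with ⟨rfl, rfl⟩ | hd
      · exact hQ _ _ _ _ _ _ h5 h3
      · exact h6 d κ hd hκ
  | c2 e l ihl =>
    intro res h
    by_cases hr : 2 ≤ rem
    · obtain ⟨r, rfl⟩ : ∃ r, rem = r + 2 := ⟨rem - 2, by omega⟩
      have h' : ih b e r (e :: acc) res (loop l ih b (r + 2) acc k) = true := h
      obtain ⟨s1, h1, h2, h3⟩ := hih _ _ _ _ _ _ h'
      obtain ⟨s2, h4, h5, h6⟩ := ihl s1 h1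
      refine ⟨s2, h4, h2.trans h5, ?_⟩
      intro d κ hd hκ
      simp only [inOL, Bool.or_eq_true, Bool.and_eq_true, decide_eq_true_eq] at hd
      rcases hd with ⟨rfl, rfl⟩ | hd
      · exact hQ _ _ _ _ _ _ h5 h3
      · exact h6 d κ hd hκ
    · have h' : loop l ih b rem acc k res = true := by
        rcases rem with _ | _ | r
        · exact h
        · exact h
        · omega
      obtain ⟨s2, h4, h5, h6⟩ := ihl res h'
      refine ⟨s2, h4, h5, ?_⟩
      intro d κ hd hκ
      simp only [inOL, Bool.or_eq_true, Bool.and_eq_true, decide_eq_true_eq] at hd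
      rcases hd with ⟨rfl, rfl⟩ | hd
      · omega
      · exact h6 d κ hd hκ
  | c3 e l ihl =>
    intro res h
    by_cases hr : 3 ≤ rem
    · obtain ⟨r, rfl⟩ : ∃ r, rem = r + 3 := ⟨rem - 3, by omega⟩
      have h' : ih b e r (e :: acc) res (loop l ih b (r + 3) acc k) = true := h
      obtain ⟨s1, h1, h2, h3⟩ := hih _ _ _ _ _ _ h'
      obtain ⟨s2, h4, h5, h6⟩ := ihl s1 h1
      refine ⟨s2, h4, h2.trans h5, ?_⟩
      intro d κ hd hκ
      simp only [inOL, Bool.or_eq_true, Bool.and_eq_true, decide_eq_true_eq] at hd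
      rcases hd with ⟨rfl, rfl⟩ | hd
      · exact hQ _ _ _ _ _ _ h5 h3
      · exact h6 d κ hd hκ
    · have h' : loop l ih b rem acc k res = true := by
        rcases rem with _ | _ | _ | r
        · exact h
        · exact h
        · exact h
        · omega
      obtain ⟨s2, h4, h5, h6⟩ := ihl res h'
      refine ⟨s2, h4, h5, ?_⟩
      intro d κ hd hκ
      simp only [inOL, Bool.or_eq_true, Bool.and_eq_true, decide_eq_true_eq] at hd
      rcases hd with ⟨rfl, rfl⟩ | hd
      · omega
      · exact h6 d κ hd hκ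

/-- horizontally adjacent types -/
def hok (c d : Ty) : Bool :=
  decide ((c = Ty.L ↔ d = Ty.R) ∧ ¬ (c = Ty.O ∧ d = Ty.O))

/-- vertically adjacent types -/
def vok (a c : Ty) : Bool :=
  decide ((a = Ty.T ↔ c = Ty.B) ∧ ¬ (a = Ty.O ∧ c = Ty.O))

/-- half of a domino -/
def nh (x : Ty) : Bool := decide (x ≠ Ty.O ∧ x ≠ Ty.X)

/-- `1` if the statement is true -/
def i1 (b : Bool) : ℕ := if b = true then 1 else 0

/-- cost of a horizontal pair -/
def hp (c d : Ty) : ℕ :=
  i1 (nh c && nh d && !(decide (c = Ty.L) && decide (d = Ty.R)) && decide (c = Ty.R)) +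
  i1 (nh c && nh d && !(decide (c = Ty.L) && decide (d = Ty.R)) && decide (d = Ty.L))

/-- the other costs of a window -/
def vt (a b c d : Ty) : ℕ :=
  i1 (nh b && nh d && !(decide (b = Ty.T) && decide (d = Ty.B)) && decide (b = Ty.B)) +
  i1 (nh b && nh d && !(decide (b = Ty.T) && decide (d = Ty.B)) && decide (d = Ty.T)) +
  i1 (decide (a = Ty.T) && decide (c = Ty.B) && nh b && nh d) +
  i1 (decide (b = Ty.T) && decide (d = Ty.B) && nh a && nh c) +
  i1 (decide (a = Ty.L) && decide (b = Ty.R) && nh c && nh d) +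
  i1 (decide (c = Ty.L) && decide (d = Ty.R) && nh a && nh b) +
  i1 (decide (a = Ty.X) && decide (b = Ty.X) && nh c && nh d &&
    !(decide (c = Ty.L) && decide (d = Ty.R))) +
  i1 (decide (c = Ty.X) && decide (d = Ty.X) && nh a && nh b &&
    !(decide (a = Ty.L) && decide (b = Ty.R))) +
  i1 (decide (a = Ty.X) && decide (c = Ty.X) && nh b && nh d &&
    !(decide (b = Ty.T) && decide (d = Ty.B))) +
  i1 (decide (b = Ty.X) && decide (d = Ty.X) && nh a && nh c &&
    !(decide (a = Ty.T) && decide (c = Ty.B))) +
  2 * i1 (decide (a = Ty.X) && decide (b = Ty.X) && decide (c = Ty.X) && nh d) +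
  2 * i1 (decide (a = Ty.X) && decide (b = Ty.X) && decide (d = Ty.X) && nh c) +
  2 * i1 (decide (a = Ty.X) && decide (c = Ty.X) && decide (d = Ty.X) && nh b) +
  2 * i1 (decide (b = Ty.X) && decide (c = Ty.X) && decide (d = Ty.X) && nh a)

theorem opts_complete : ∀ a b c d : Ty, hok a b = true → vok a c = true → hok c d = true →
    vok b d = true → d ≠ Ty.X → inOL (opts a b c) d (hp c d + vt a b c d) = true := by
  decide +kernel

theorem endc_eq : ∀ a c : Ty, hok a Ty.X = true → vok a c = true → hok c Ty.X = true → c ≠ Ty.X →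
    endc a c = some (hp c Ty.X + vt a Ty.X c Ty.X) := by
  decide +kernel

theorem botc_eq : ∀ a b : Ty, hok a b = true → vok a Ty.X = true → vok b Ty.X = true →
    botc a b = some (hp Ty.X Ty.X + vt a b Ty.X Ty.X) := by
  decide +kernel

end Pool.Agent.H17Gun
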